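import Mathlib
import Pool.Agent.H675R2.HT.Sol

/-!
Definable functions and colour terms over models of arithmetical comprehension, with a tactic
`d0` that proves arithmetical definability.
-/

namespace Pool.Agent.H645R2.K

open Pool.Agent.Helper617.RM Pool.Agent.H675R2.HT

universe u

set_option linter.unusedSectionVars false
set_option linter.unusedVariables false

variable {N : L2Structure.{u}} [IsModelRCA0 N] [Sig1 N]

/-- definable functions of the context -/
def DF (g : Ctx N → N.M) : Prop := D0 (fun w => w 0 = g (tail w))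

theorem DF.tail {g : Ctx N → N.M} (hg : DF g) : DF (fun v => g (Helper617.RM.tail v)) :=
  D0.comp (R := fun w => w 0 = g (Helper617.RM.tail w)) hg
    (g := fun w => cons (w 0) (Helper617.RM.tail (Helper617.RM.tail w)))
    (CM.cons (Tm.var 0) CM.tail.tail')

theorem DF.tm {g : Ctx N → N.M} (hg : Tm g) : DF g := D0.eq (Tm.var 0) hg.tail

theorem D0.substF {P : Ctx N → N.M → Prop} (hP : D0 (fun w => P (Helper617.RM.tail w) (w 0)))
    {g : Ctx N → N.M} (hg : DF g) : D0 (fun v => P v (g v)) := by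
  refine D0.congr (R := fun v => ∃ w, w = g v ∧ P v w) ?_ fun v => by simp
  exact D0.ex (D0.and hg hP)

theorem D0.app1 {R : N.M → Prop} (hR : D0 (fun v => R (v 0))) {g : Ctx N → N.M} (hg : DF g) :
    D0 (fun v => R (g v)) := D0.substF (P := fun _ x => R x) hR hg

theorem D0.app2 {R : N.M → N.M → Prop} (hR : D0 (fun v => R (v 0) (v 1)))
    {g g' : Ctx N → N.M} (hg : DF g) (hg' : DF g') : D0 (fun v => R (g v) (g' v)) := by
  refine D0.substF (P := fun v x => R x (g' v)) ?_ hg
  refine D0.substF (P := fun v x => R (v 0) x) ?_ hg'.tail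
  exact hR.rel (Tm.var 1) (Tm.var 0)

theorem D0.app3 {R : N.M → N.M → N.M → Prop} (hR : D0 (fun v => R (v 0) (v 1) (v 2)))
    {g g' g'' : Ctx N → N.M} (hg : DF g) (hg' : DF g') (hg'' : DF g'') :
    D0 (fun v => R (g v) (g' v) (g'' v)) := by
  refine D0.substF (P := fun v x => R x (g' v) (g'' v)) ?_ hg
  refine D0.substF (P := fun v x => R (v 0) x (g'' (Helper617.RM.tail v))) ?_ hg'.tail
  refine D0.substF (P := fun v x => R (v 1) (v 0) x) ?_ hg''.tail.tail
  exact D0.rel3 hR (Tm.var 2) (Tm.var 1) (Tm.var 0)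

theorem DF.var (i : ℕ) : DF (fun v : Ctx N => v i) := DF.tm (Tm.var i)

theorem DF.const (a : N.M) : DF (fun _ : Ctx N => a) := DF.tm (Tm.const a)

theorem DF.op2 {f : N.M → N.M → N.M} (hf : D0 (fun v => v 0 = f (v 1) (v 2)))
    {g g' : Ctx N → N.M} (hg : DF g) (hg' : DF g') : DF (fun v => f (g v) (g' v)) :=
  D0.app3 (R := fun a b c => a = f b c) hf (DF.var 0) hg.tail hg'.tail

theorem DF.add {g g' : Ctx N → N.M} (hg : DF g) (hg' : DF g') : DF (fun v => g v + g' v) :=
  DF.op2 (f := fun a b => a + b) (D0.eq (Tm.var 0) ((Tm.var 1).add (Tm.var 2))) hg hg'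

theorem DF.mul {g g' : Ctx N → N.M} (hg : DF g) (hg' : DF g') : DF (fun v => g v * g' v) :=
  DF.op2 (f := fun a b => a * b) (D0.eq (Tm.var 0) ((Tm.var 1).mul (Tm.var 2))) hg hg'

theorem DF.pr {g g' : Ctx N → N.M} (hg : DF g) (hg' : DF g') :
    DF (fun v => Helper617.RM.pr (g v) (g' v)) :=
  DF.op2 (f := fun a b => Helper617.RM.pr a b) (D0.eq (Tm.var 0) ((Tm.var 1).pr (Tm.var 2))) hg hg'

/-- arithmetical functions -/
def DF1 (f : N.M → N.M) : Prop := D0 (fun v => v 1 = f (v 0))

theorem DF.app {f : N.M → N.M} (hf : DF1 f) {g : Ctx N → N.M} (hg : DF g) :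
    DF (fun v => f (g v)) :=
  D0.app2 (R := fun a b => b = f a) hf hg.tail (DF.var 0)

theorem DF1.id : DF1 (fun x : N.M => x) := D0.eq (Tm.var 1) (Tm.var 0)

theorem DF1.of {f : N.M → N.M} (hf : DF (fun v => f (v 0))) : DF1 f :=
  D0.comp (R := fun w => w 0 = f (Helper617.RM.tail w 0)) hf
    (g := fun w => cons (w 1) w) (CM.cons (Tm.var 1) CM.id)

theorem D0.eqF {g g' : Ctx N → N.M} (hg : DF g) (hg' : DF g') : D0 (fun v => g v = g' v) :=
  D0.app2 (R := fun a b => a = b) (D0.eq (Tm.var 0) (Tm.var 1)) hg hg'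

theorem D0.ltF {g g' : Ctx N → N.M} (hg : DF g) (hg' : DF g') : D0 (fun v => g v < g' v) :=
  D0.app2 (R := fun a b => a < b) (D0.lt (Tm.var 0) (Tm.var 1)) hg hg'

theorem D0.leF {g g' : Ctx N → N.M} (hg : DF g) (hg' : DF g') : D0 (fun v => g v ≤ g' v) :=
  D0.app2 (R := fun a b => a ≤ b) (D0.le (Tm.var 0) (Tm.var 1)) hg hg'

theorem D0.memF {g : Ctx N → N.M} (hg : DF g) {X : Set N.M} (hX : X ∈ N.Sets) :
    D0 (fun v => g v ∈ X) := D0.app1 (R := fun a => a ∈ X) (D0.mem (Tm.var 0) hX) hg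

theorem D0.MemCF {g g' : Ctx N → N.M} (hg : DF g) (hg' : DF g') :
    D0 (fun v => MemC (g v) (g' v)) :=
  D0.app2 (R := fun a b => MemC a b) (MemC_D0 (Tm.var 0) (Tm.var 1)) hg hg'

theorem D0.IsCF {g : Ctx N → N.M} (hg : DF g) : D0 (fun v => IsC (g v)) :=
  D0.app1 (R := fun a => IsC a) (IsC_D0 (Tm.var 0)) hg

/-! ### colours -/

section colours

variable {k : ℕ}

/-- colour terms -/
def CT (g : Ctx N → Fin k) : Prop := ∀ j, D0 (fun v => g v = j)

/-- arithmetical colourings -/
def CT1 (f : N.M → Fin k) : Prop := ∀ j, D0 (fun v => f (v 0) = j)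

/-- arithmetical families of colourings -/
def CT2 (f : N.M → N.M → Fin k) : Prop := ∀ j, D0 (fun v => f (v 0) (v 1) = j)

theorem CT.const (c : Fin k) : CT (fun _ : Ctx N => c) := fun j => D0.const _

theorem CT.app1 {f : N.M → Fin k} (hf : CT1 f) {g : Ctx N → N.M} (hg : DF g) :
    CT (fun v => f (g v)) := fun j => D0.app1 (R := fun a => f a = j) (hf j) hg

theorem CT.app2 {f : N.M → N.M → Fin k} (hf : CT2 f) {g g' : Ctx N → N.M} (hg : DF g)
    (hg' : DF g') : CT (fun v => f (g v) (g' v)) :=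
  fun j => D0.app2 (R := fun a b => f a b = j) (hf j) hg hg'

theorem CT.tail {g : Ctx N → Fin k} (hg : CT g) : CT (fun v => g (Helper617.RM.tail v)) :=
  fun j => (hg j).tail

/-- finite disjunctions -/
theorem D0.finEx {ι : Type} [Finite ι] {P : ι → Ctx N → Prop} (h : ∀ i, D0 (P i)) :
    D0 (fun v => ∃ i, P i v) := by
  classical
  haveI := Fintype.ofFinite ι
  have key : ∀ T : Finset ι, D0 (fun v => ∃ i ∈ T, P i v) := by
    intro T
    induction T using Finset.induction_on with
    | empty => exact D0.false.congr fun v => by simp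
    | insert a T ha ih => exact ((h a).or ih).congr fun v => by simp
  exact (key Finset.univ).congr fun v => by simp

/-- finite conjunctions -/
theorem D0.finAll {ι : Type} [Finite ι] {P : ι → Ctx N → Prop} (h : ∀ i, D0 (P i)) :
    D0 (fun v => ∀ i, P i v) := by
  refine (D0.finEx fun i => (h i).not).not.congr fun v => by simp

theorem CT.eq {g g' : Ctx N → Fin k} (hg : CT g) (hg' : CT g') : D0 (fun v => g v = g' v) := by
  refine (D0.finEx (ι := Fin k) (P := fun j v => g v = j ∧ g' v = j)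
    fun j => (hg j).and (hg' j)).congr fun v => ?_
  constructor
  · rintro ⟨j, h1, h2⟩; rw [h1, h2]
  · intro h; exact ⟨g' v, h, rfl⟩

theorem CT.mem {g : Ctx N → Fin k} (hg : CT g) (S : Finset (Fin k)) :
    D0 (fun v => g v ∈ S) := by
  refine (D0.finEx (ι := Fin k) (P := fun j v => g v = j ∧ j ∈ S)
    fun j => (hg j).and (D0.const _)).congr fun v => ?_
  constructor
  · rintro ⟨j, h1, h2⟩; rw [h1]; exact h2
  · intro h; exact ⟨g v, rfl, h⟩

theorem CT1.of {f : N.M → Fin k} (hf : CT (fun v => f (v 0))) : CT1 f := hf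

theorem CT2.of {f : N.M → N.M → Fin k} (hf : CT (fun v => f (v 0) (v 1))) : CT2 f := hf

theorem CT2.left {f : N.M → N.M → Fin k} (hf : CT2 f) (a : N.M) : CT1 (fun b => f a b) :=
  CT.app2 hf (DF.const a) (DF.var 0)

theorem CT2.right {f : N.M → N.M → Fin k} (hf : CT2 f) (a : N.M) : CT1 (fun b => f b a) :=
  CT.app2 hf (DF.var 0) (DF.const a)

/-- the words of length `l` at `s` and at `t` are equal -/
def EqW (col : N.M → Fin k) (s t l : N.M) : Prop := ∀ i, i < l → col (s + i) = col (t + i)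

/-- the word `(t, l)` occurs in the sequence `s` at `p` -/
def Occ (col s : N.M → Fin k) (t l p : N.M) : Prop := ∀ i, i < l → s (p + i) = col (t + i)

/-- the word `(t, l)` occurs in the sequence `F · v` at `p` -/
def OccF (col : N.M → Fin k) (F : N.M → N.M → Fin k) (t l p v : N.M) : Prop :=
  ∀ i, i < l → F (p + i) v = col (t + i)

end colours


section lemmas

variable {k : ℕ} {col : N.M → Fin k}

theorem EqW_D0 (hcol : CT1 col) {s t l : Ctx N → N.M} (hs : DF s) (ht : DF t) (hl : DF l) :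
    D0 (fun v => EqW col (s v) (t v) (l v)) := by
  refine D0.app3 (R := fun s t l => EqW col s t l) ?_ hs ht hl
  unfold EqW
  (repeat' (first | assumption | exact DF.var _ | refine DF.add ?_ ?_ | refine DF.mul ?_ ?_ | refine DF.pr ?_ ?_ | exact DF.const _ | refine DF.app (by assumption) ?_ | refine CT.app1 (by assumption) ?_ | refine CT.app2 (by assumption) ?_ ?_ | exact CT.const _ | refine D0.MemCF ?_ ?_ | refine D0.IsCF ?_ | refine D0.and ?_ ?_ | refine D0.or ?_ ?_ | refine D0.ex ?_ | refine D0.all ?_ | refine D0.iff ?_ ?_ | refine D0.imp ?_ ?_ | refine D0.not ?_ | refine D0.ltF ?_ ?_ | refine D0.leF ?_ ?_ | refine D0.eqF ?_ ?_ | refine CT.eq ?_ ?_ | refine CT.mem ?_ _ | refine D0.memF ?_ (by assumption) | exact D0.true | exact D0.false | exact D0.const _))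

theorem Occ_D0 (hcol : CT1 col) {S : N.M → Fin k} (hS : CT1 S) {t l p : Ctx N → N.M}
    (ht : DF t) (hl : DF l) (hp : DF p) : D0 (fun v => Occ col S (t v) (l v) (p v)) := by
  refine D0.app3 (R := fun t l p => Occ col S t l p) ?_ ht hl hp
  unfold Occ
  (repeat' (first | assumption | exact DF.var _ | refine DF.add ?_ ?_ | refine DF.mul ?_ ?_ | refine DF.pr ?_ ?_ | exact DF.const _ | refine DF.app (by assumption) ?_ | refine CT.app1 (by assumption) ?_ | refine CT.app2 (by assumption) ?_ ?_ | exact CT.const _ | refine D0.MemCF ?_ ?_ | refine D0.IsCF ?_ | refine D0.and ?_ ?_ | refine D0.or ?_ ?_ | refine D0.ex ?_ | refine D0.all ?_ | refine D0.iff ?_ ?_ | refine D0.imp ?_ ?_ | refine D0.not ?_ | refine D0.ltF ?_ ?_ | refine D0.leF ?_ ?_ | refine D0.eqF ?_ ?_ | refine CT.eq ?_ ?_ | refine CT.mem ?_ _ | refine D0.memF ?_ (by assumption) | exact D0.true | exact D0.false | exact D0.const _))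

theorem OccF_D0 (hcol : CT1 col) {F : N.M → N.M → Fin k} (hF : CT2 F)
    {t l p v' : Ctx N → N.M} (ht : DF t) (hl : DF l) (hp : DF p) (hv : DF v') :
    D0 (fun v => OccF col F (t v) (l v) (p v) (v' v)) := by
  refine D0.substF (P := fun v x => OccF col F (t v) (l v) (p v) x) ?_ hv
  refine D0.substF (P := fun v x => OccF col F (t (Helper617.RM.tail v))
    (l (Helper617.RM.tail v)) x (v 0)) ?_ hp.tail
  refine D0.substF (P := fun v x => OccF col F (t (Helper617.RM.tail (Helper617.RM.tail v)))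
    x (v 0) (v 1)) ?_ hl.tail.tail
  refine D0.substF (P := fun v x => OccF col F x (v 0) (v 1) (v 2)) ?_ ht.tail.tail.tail
  unfold OccF
  (repeat' (first | assumption | exact DF.var _ | refine DF.add ?_ ?_ | refine DF.mul ?_ ?_ | refine DF.pr ?_ ?_ | exact DF.const _ | refine DF.app (by assumption) ?_ | refine CT.app1 (by assumption) ?_ | refine CT.app2 (by assumption) ?_ ?_ | exact CT.const _ | refine D0.MemCF ?_ ?_ | refine D0.IsCF ?_ | refine D0.and ?_ ?_ | refine D0.or ?_ ?_ | refine D0.ex ?_ | refine D0.all ?_ | refine D0.iff ?_ ?_ | refine D0.imp ?_ ?_ | refine D0.not ?_ | refine D0.ltF ?_ ?_ | refine D0.leF ?_ ?_ | refine D0.eqF ?_ ?_ | refine CT.eq ?_ ?_ | refine CT.mem ?_ _ | refine D0.memF ?_ (by assumption) | exact D0.true | exact D0.false | exact D0.const _))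

end lemmas

end Pool.Agent.H645R2.K
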