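import Mathlib
import Pool.Agent.H645R2.K.Tac

/-!
Definitions and the statements of the steps for: every `k`-colouring in a model of arithmetical
comprehension has an unbounded set whose elements and pairwise sums have at most `max 1 (k/2)`
colours.
-/

namespace Pool.Agent.H645R2.K

open Pool.Agent.Helper617.RM Pool.Agent.H675R2.HT

universe u

set_option linter.unusedSectionVars false
set_option linter.unusedVariables false


section defs

variable {N : L2Structure.{u}} [IsModelRCA0 N] [Sig1 N] {k : ℕ}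

/-- the conclusion: an unbounded set of the model whose elements and pairwise sums have their
colours in a set of at most `K` colours -/
def Conc (col : N.M → Fin k) (K : ℕ) : Prop :=
  ∃ S : Finset (Fin k), S.card ≤ K ∧ ∃ X ∈ N.Sets, (∀ b, ∃ x ∈ X, b < x) ∧
    (∀ x ∈ X, col x ∈ S) ∧ ∀ x ∈ X, ∀ y ∈ X, x < y → col (x + y) ∈ S

/-- the properties of a minimal language (a word is a pair `pr t l`: the word of length `l` that
starts at place `t` of the colouring) -/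
structure MinLang (col : N.M → Fin k) (G : Set N.M) : Prop where
  mem : G ∈ N.Sets
  far : ∀ L b, ∃ s, b ≤ s ∧ pr s L ∈ G
  sub : ∀ t l r t' l', pr t l ∈ G → r + l' ≤ l → EqW col (t + r) t' l' → pr t' l' ∈ G
  recur : ∀ t l, pr t l ∈ G → ∃ g, ∀ t' l', pr t' l' ∈ G → g ≤ l' →
    ∃ r, r + l ≤ l' ∧ EqW col (t' + r) t l

/-- the system of limits: `F u v` is the value at the integer `u - v` of a two-sided point of the
minimal system -/
structure Sys (col : N.M → Fin k) (G : Set N.M) (y : N.M → N.M) (F : N.M → N.M → Fin k)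
    (A A1 B1 B2 A2 : N.M → Fin k) : Prop where
  hcol : CT1 col
  ml : MinLang col G
  hy : DF1 y
  hF : CT2 F
  hA : CT1 A
  hA1 : CT1 A1
  hB1 : CT1 B1
  hB2 : CT1 B2
  hA2 : CT1 A2
  y_ge : ∀ n, n ≤ y n
  F_shift : ∀ u v t, F (u + t) (v + t) = F u v
  F_fac : ∀ p v t l, OccF col F t l p v → pr t l ∈ G
  F_word : ∀ p v l, ∃ t, pr t l ∈ G ∧ OccF col F t l p v
  F_lim : ∀ v W, ∃ n0, ∀ n, n0 ≤ n → ∀ z, z + v = y n → ∀ i, i < W → col (z + i) = F i v
  A_lim : ∀ W, ∃ n0, ∀ n, n0 ≤ n → ∀ i, i < W → A i = F i (y n)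
  A1_lim : ∀ W, ∃ n0, ∀ n, n0 ≤ n → ∀ i, i < W → A1 i = A (y n + i)
  B1_lim : ∀ W, ∃ n0, ∀ n, n0 ≤ n → ∀ i, i < W → B1 i = F (y n + i) 0
  B2_lim : ∀ W, ∃ n0, ∀ n, n0 ≤ n → ∀ i, i < W → B2 i = F (y n + y n + i) 0
  A2_lim : ∀ W, ∃ n0, ∀ n, n0 ≤ n → ∀ i, i < W → A2 i = F i (y n + y n)

/-- `z ≥ b` with the word `(t,l)` at `z` never allows a good extension of the word with the
letter `j` at place `z + 2o` -/
def badC (col : N.M → Fin k) (G : Set N.M) (j : Fin k) (t l o b : N.M) : Prop :=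
  ∀ z, b ≤ z → EqW col z t l → ∀ t' l', pr t' l' ∈ G → l ≤ l' → EqW col t' t l →
    z + (o + o) < l' → col (t' + (z + (o + o))) ≠ j

/-- the ends have their colours in `S` -/
def eS (col A : N.M → Fin k) (G : Set N.M) (S : Finset (Fin k)) (t l o : N.M) : Prop :=
  ∀ h, Occ col A t l h → ∀ t' l', pr t' l' ∈ G → l ≤ l' → EqW col t' t l →
    h + (o + o) < l' → col (t' + (h + (o + o))) ∈ S

/-- the midpoints have their colours in `S` -/
def midS (col : N.M → Fin k) (G : Set N.M) (S : Finset (Fin k)) (t l o : N.M) : Prop :=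
  ∀ t' l' p s, pr t' l' ∈ G → p + (s + s) + l ≤ l' → EqW col (t' + p) t l →
    EqW col (t' + (p + (s + s))) t l → col (t' + (p + s + o)) ∈ S

/-- property (H) -/
def HypH (col A : N.M → Fin k) (G : Set N.M) : Prop :=
  ∀ t0 l0 o, pr t0 l0 ∈ G → o < l0 → ∃ t l, pr t l ∈ G ∧ l0 ≤ l ∧ EqW col t t0 l0 ∧
    eS col A G {col (t0 + o)}ᶜ t l o

/-- the marked word `(t,l,o)` is central in the marked word `(t1,l1,o1)` -/
def Cen (col : N.M → Fin k) (t l o t1 l1 o1 : N.M) : Prop :=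
  ∃ q1 q2, q1 ≤ q2 ∧ q2 + l ≤ l1 ∧ EqW col (t1 + q1) t l ∧ EqW col (t1 + q2) t l ∧
    q1 + q2 + (o + o) = o1 + o1

/-- the hypothesis of the E-case -/
def HypE (col A : N.M → Fin k) (G : Set N.M) (S : Finset (Fin k)) : Prop :=
  ∀ L, ∃ t l o q1 q2, pr t l ∈ G ∧ q1 ≤ q2 ∧ q2 + L ≤ l ∧ (∀ i, i < L → A i = col (t + (q1 + i))) ∧
    (∀ i, i < L → A i = col (t + (q2 + i))) ∧ q1 + q2 = o + o ∧ o < l ∧ eS col A G S t l o

/-- the hypothesis of the C-case -/
def HypC (col A : N.M → Fin k) (G : Set N.M) (K : ℕ) (L0 : N.M) : Prop :=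
  ∀ t l o, pr t l ∈ G → o < l → o + L0 ≤ l → (∀ i, i < L0 → A i = col (t + (o + i))) →
    ∃ t1 l1 o1, pr t1 l1 ∈ G ∧ o1 < l1 ∧ Cen col t l o t1 l1 o1 ∧
      ∃ S : Finset (Fin k), S.card ≤ K ∧ midS col G S t1 l1 o1

end defs

/-! ### the statements -/

/-- dependent choice with colours -/
def S_solveK : Prop := ∀ (N : L2Structure.{u}) [IsModelRCA0 N] [Sig1 N] (k : ℕ)
  (col : N.M → Fin k) (K : ℕ) (P : Finset (Fin k) → N.M → Prop), CT1 col →
  (∀ S, D0 (fun v => P S (v 0))) → (∀ S z, P S z → col z ∈ S ∧ S.card ≤ K) →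
  (∀ b, ∃ x', b < x' ∧ (∃ S, P S x') ∧ ∀ S z, z ≤ b → P S z → col (z + x') ∈ S) → Conc col K

/-- existence of minimal languages -/
def S_minlang : Prop := ∀ (N : L2Structure.{u}) [IsModelRCA0 N] [Sig1 N] (k : ℕ)
  (col : N.M → Fin k), CT1 col → ∃ G, MinLang col G

/-- a two-sided point of the minimal system -/
def S_point : Prop := ∀ (N : L2Structure.{u}) [IsModelRCA0 N] [Sig1 N] (k : ℕ)
  (col : N.M → Fin k) (G : Set N.M), CT1 col → MinLang col G →
  ∃ (Q : N.M → N.M), DF1 Q ∧ (∀ n, pr (Q n) (n + n) ∈ G) ∧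
      ∀ n d, EqW col (Q (n + d) + d) (Q n) (n + n)

/-- convergent subsequences -/
def S_conv : Prop := ∀ (N : L2Structure.{u}) [IsModelRCA0 N] [Sig1 N] (k : ℕ)
  (B : N.M → N.M → Fin k), CT2 B →
  ∃ (J : N.M → N.M) (A : N.M → Fin k), DF1 J ∧ CT1 A ∧ (∀ n, n ≤ J n) ∧
    ∀ n i, i < n → B (J n) i = A i

/-- existence of the system of limits -/
def S_sys : Prop := ∀ (N : L2Structure.{u}) [IsModelRCA0 N] [Sig1 N] (k : ℕ)
  (col : N.M → Fin k) (G : Set N.M), CT1 col → MinLang col G →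
  ∃ (y : N.M → N.M) (F : N.M → N.M → Fin k) (A A1 B1 B2 A2 : N.M → Fin k),
    Sys col G y F A A1 B1 B2 A2

/-- the generic case -/
def S_generic : Prop := ∀ (N : L2Structure.{u}) [IsModelRCA0 N] [Sig1 N] (k : ℕ)
  (col : N.M → Fin k) (G : Set N.M), CT1 col → MinLang col G →
  ∀ t0 l0 o, pr t0 l0 ∈ G → o < l0 →
    (∀ t l b, pr t l ∈ G → l0 ≤ l → EqW col t t0 l0 → ¬ badC col G (col (t0 + o)) t l o b) →
    Conc col 1

/-- every good word occurs in the limit sequences -/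
def S_occ : Prop := ∀ (N : L2Structure.{u}) [IsModelRCA0 N] [Sig1 N] (k : ℕ)
  (col : N.M → Fin k) (G : Set N.M) (y : N.M → N.M) (F : N.M → N.M → Fin k)
  (A A1 B1 B2 A2 : N.M → Fin k), Sys col G y F A A1 B1 B2 A2 → ∀ t l, pr t l ∈ G →
    (∃ p, Occ col A t l p) ∧ (∃ p, Occ col A1 t l p) ∧ (∃ p, Occ col B1 t l p)

/-- two occurrences with offsets of the same parity -/
def S_twoocc : Prop := ∀ (N : L2Structure.{u}) [IsModelRCA0 N] [Sig1 N] (k : ℕ)
  (col : N.M → Fin k) (G : Set N.M), CT1 col → MinLang col G → ∀ t1 l1, pr t1 l1 ∈ G →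
  ∃ g : N.M, ∀ t l, pr t l ∈ G → ∀ p q e : N.M, p + q = e + e → p + g ≤ l → q + g ≤ l →
      ∃ f f' h : N.M, f + l1 ≤ g ∧ f' + l1 ≤ g ∧ EqW col (t + p + f) t1 l1 ∧
        EqW col (t + q + f') t1 l1 ∧ f + f' = h + h

/-- occurrences of a good word near `2y` and near `-2y`, symmetric up to parity -/
def S_par : Prop := ∀ (N : L2Structure.{u}) [IsModelRCA0 N] [Sig1 N] (k : ℕ)
  (col : N.M → Fin k) (G : Set N.M) (y : N.M → N.M) (F : N.M → N.M → Fin k)
  (A A1 B1 B2 A2 : N.M → Fin k), Sys col G y F A A1 B1 B2 A2 → ∀ t l, pr t l ∈ G →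
    ∃ d d' g n1 : N.M, d + d' = g + g ∧ ∀ n, n1 ≤ n →
      OccF col F t l (y n + y n + d) 0 ∧ OccF col F t l d' (y n + y n)

/-- transfer of badness -/
def S_transfer : Prop := ∀ (N : L2Structure.{u}) [IsModelRCA0 N] [Sig1 N] (k : ℕ)
  (col : N.M → Fin k) (G : Set N.M) (y : N.M → N.M) (F : N.M → N.M → Fin k)
  (A A1 B1 B2 A2 : N.M → Fin k), Sys col G y F A A1 B1 B2 A2 →
  ∀ (j : Fin k) (t l o b : N.M), pr t l ∈ G → badC col G j t l o b → eS col A G {j}ᶜ t l o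

/-- separation -/
def S_sep : Prop := ∀ (N : L2Structure.{u}) [IsModelRCA0 N] [Sig1 N] (k : ℕ)
  (col A : N.M → Fin k) (G : Set N.M), MinLang col G → HypH col A G →
  ∀ t l o, pr t l ∈ G → o < l → ∃ t1 l1 o1, pr t1 l1 ∈ G ∧ o1 < l1 ∧ Cen col t l o t1 l1 o1 ∧
    ∃ S : Finset (Fin k), midS col G S t1 l1 o1 ∧ eS col A G Sᶜ t1 l1 o1

/-- the end of the E-case -/
def S_efinal : Prop := ∀ (N : L2Structure.{u}) [IsModelRCA0 N] [Sig1 N] (k : ℕ)
  (col : N.M → Fin k) (G : Set N.M) (y : N.M → N.M) (F : N.M → N.M → Fin k)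
  (A A1 B1 B2 A2 : N.M → Fin k), Sys col G y F A A1 B1 B2 A2 →
  ∀ (K : ℕ) (S : Finset (Fin k)), S.card ≤ K → HypE col A G S → Conc col K

/-- the end of the C-case -/
def S_cfinal : Prop := ∀ (N : L2Structure.{u}) [IsModelRCA0 N] [Sig1 N] (k : ℕ)
  (col : N.M → Fin k) (G : Set N.M) (y : N.M → N.M) (F : N.M → N.M → Fin k)
  (A A1 B1 B2 A2 : N.M → Fin k), Sys col G y F A A1 B1 B2 A2 →
  ∀ (K : ℕ) (L0 : N.M), HypC col A G K L0 → Conc col K

/-- the main theorem -/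
def S_main : Prop := ∀ (N : L2Structure.{u}) [IsModelRCA0 N] [Sig1 N] (k : ℕ)
  (col : N.M → Fin k), CT1 col → Conc col (max 1 (k / 2))

end Pool.Agent.H645R2.K
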