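import Mathlib
import Pool.Agent.H645R2.K.Defs

namespace Pool.Agent.H645R2.K

open Pool.Agent.Helper617.RM Pool.Agent.H675R2.HT

universe u

set_option linter.unusedSectionVars false
set_option linter.unusedVariables false

namespace CFin

variable {N : L2Structure.{u}} [IsModelRCA0 N] [Sig1 N] {k : ℕ}

/-- the witnesses for a member `z` of the solution -/
def W (col : N.M → Fin k) (G : Set N.M) (y : N.M → N.M) (F : N.M → N.M → Fin k)
    (S : Finset (Fin k)) (z w : N.M) : Prop :=
  ∃ t l o d d' n g R, w = R + (y n + y n + d + l) + (d' + l + o) ∧ pr t l ∈ G ∧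
    midS col G S t l o ∧ z = y n + g ∧ d + d' + (o + o) = g + g ∧
    OccF col F t l (y n + y n + d) 0 ∧ ∀ ν, R ≤ ν → OccF col F t l d' (y ν + y ν)

theorem W_D0 {col : N.M → Fin k} {G : Set N.M} {y : N.M → N.M} {F : N.M → N.M → Fin k}
    (hcol : CT1 col) (hG : G ∈ N.Sets) (hy : DF1 y) (hF : CT2 F) (S : Finset (Fin k)) :
    D0 (fun v => W col G y F S (v 0) (v 1)) := by
  unfold W midS
  (repeat' (first | assumption | exact DF.var _ | refine DF.add ?_ ?_ | refine DF.mul ?_ ?_ | refine DF.pr ?_ ?_ | exact DF.const _ | refine DF.app (by assumption) ?_ | refine CT.app1 (by assumption) ?_ | refine CT.app2 (by assumption) ?_ ?_ | exact CT.const _ | refine D0.MemCF ?_ ?_ | refine D0.IsCF ?_ | refine EqW_D0 (by assumption) ?_ ?_ ?_ | refine Occ_D0 (by assumption) (by assumption) ?_ ?_ ?_ | refine OccF_D0 (by assumption) (by assumption) ?_ ?_ ?_ ?_ | refine D0.and ?_ ?_ | refine D0.or ?_ ?_ | refine D0.ex ?_ | refine D0.all ?_ | refine D0.iff ?_ ?_ | refine D0.imp ?_ ?_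 | refine D0.not ?_ | refine D0.ltF ?_ ?_ | refine D0.leF ?_ ?_ | refine D0.eqF ?_ ?_ | refine CT.eq ?_ ?_ | refine CT.mem ?_ _ | refine D0.memF ?_ (by assumption) | exact D0.true | exact D0.false | exact D0.const _))

/-- the predicate -/
def P (col : N.M → Fin k) (G : Set N.M) (y : N.M → N.M) (F : N.M → N.M → Fin k) (K : ℕ)
    (S : Finset (Fin k)) (z : N.M) : Prop :=
  (col z ∈ S ∧ S.card ≤ K) ∧ ∃ w, W col G y F S z w

theorem P_D0 {col : N.M → Fin k} {G : Set N.M} {y : N.M → N.M} {F : N.M → N.M → Fin k}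
    (hcol : CT1 col) (hG : G ∈ N.Sets) (hy : DF1 y) (hF : CT2 F) (K : ℕ) (S : Finset (Fin k)) :
    D0 (fun v => P col G y F K S (v 0)) := by
  unfold P W midS
  (repeat' (first | assumption | exact DF.var _ | refine DF.add ?_ ?_ | refine DF.mul ?_ ?_ | refine DF.pr ?_ ?_ | exact DF.const _ | refine DF.app (by assumption) ?_ | refine CT.app1 (by assumption) ?_ | refine CT.app2 (by assumption) ?_ ?_ | exact CT.const _ | refine D0.MemCF ?_ ?_ | refine D0.IsCF ?_ | refine EqW_D0 (by assumption) ?_ ?_ ?_ | refine Occ_D0 (by assumption) (by assumption) ?_ ?_ ?_ | refine OccF_D0 (by assumption) (by assumption) ?_ ?_ ?_ ?_ | refine D0.and ?_ ?_ | refine D0.or ?_ ?_ | refine D0.ex ?_ | refine D0.all ?_ | refine D0.iff ?_ ?_ | refine D0.imp ?_ ?_ | refine D0.not ?_ | refine D0.ltF ?_ ?_ | refine D0.leF ?_ ?_ | refine D0.eqF ?_ ?_ | refine CT.eq ?_ ?_ | refine CT.mem ?_ _ | refine D0.memF ?_ (by assumption) | exact D0.true | exact D0.false | exact D0.const _))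

theorem shiftF {col : N.M → Fin k} {F : N.M → N.M → Fin k}
    (hsh : ∀ u v t, F (u + t) (v + t) = F u v) {t l p : N.M} (Y : N.M)
    (h : OccF col F t l p 0) : OccF col F t l (p + Y) Y := by
  intro i hi
  have h1 := hsh (p + i) 0 Y
  rw [zero_add] at h1
  have e : p + Y + i = p + i + Y := by ring
  rw [e, h1]
  exact h i hi

theorem midF {col : N.M → Fin k} {G : Set N.M} {F : N.M → N.M → Fin k}
    (hw : ∀ p v l, ∃ t, pr t l ∈ G ∧ OccF col F t l p v) {S : Finset (Fin k)} {t l o : N.M}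
    (hm : midS col G S t l o) {Y p s : N.M} (h1 : OccF col F t l p Y)
    (h2 : OccF col F t l (p + (s + s)) Y) : F (p + s + o) Y ∈ S := by
  obtain ⟨w, hwG, hwO⟩ := hw 0 Y (p + (s + s) + l + o + 1)
  have z1 := zero_le' p
  have z2 := zero_le' s
  have z3 := zero_le' l
  have z4 := zero_le' o
  have z5 := lt1 (p + (s + s) + l + o)
  have h3 := hm w (p + (s + s) + l + o + 1) p s hwG (by grind) ?_ ?_
  · have h4 := hwO (p + s + o) (by grind)
    rw [zero_add] at h4
    rw [h4]
    exact h3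
  · intro i hi
    have h4 := hwO (p + i) (by grind)
    rw [zero_add] at h4
    rw [← h1 i hi, h4, add_assoc]
  · intro i hi
    have h4 := hwO (p + (s + s) + i) (by grind)
    rw [zero_add] at h4
    rw [← h2 i hi, h4]
    congr 1
    ring

end CFin

open CFin in
theorem cfinal (hp : S_par.{u}) (hs : S_solveK.{u}) : S_cfinal.{u} := by
  intro N _ _ k col G y F A A1 B1 B2 A2 h K L0 hC
  classical
  have hcol := h.hcol
  have hy := h.hy
  have hF := h.hF
  have hG := h.ml.mem
  refine hs N k col K (fun S z => P col G y F K S z) hcol (fun S => P_D0 hcol hG hy hF K S)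
    (fun S z hz => hz.1) ?_
  intro b
  -- bounding
  have hbd : ∀ S : Finset (Fin k), ∃ B, ∀ x, x < b + 1 → (∃ w, W col G y F S x w) →
      ∃ w, w < B ∧ W col G y F S x w := fun S =>
    strong_bounding (Q := fun x w => W col G y F S x w) (W_D0 hcol hG hy hF S) (b + 1)
  choose Bf hBf using hbd
  obtain ⟨B, hB⟩ := (Finset.univ.image Bf).exists_le
  have hB' : ∀ S, Bf S ≤ B := fun S => hB _ (Finset.mem_image_of_mem _ (Finset.mem_univ S))
  have hBW : ∀ (S : Finset (Fin k)) z, z ≤ b → (∃ w, W col G y F S z w) →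
      ∃ w, w < B ∧ W col G y F S z w := by
    intro S z hz hw
    obtain ⟨w, h1, h2⟩ := hBf S z (lt1_of_le hz) hw
    exact ⟨w, lt_of_lt_of_le h1 (hB' S), h2⟩
  -- window
  obtain ⟨n0, hn0⟩ := h.A_lim L0
  obtain ⟨μ, hμ0, hμB⟩ : ∃ μ, n0 ≤ μ ∧ B ≤ μ := ⟨max n0 B, le_max_left _ _, le_max_right _ _⟩
  obtain ⟨tV, htV, hOV⟩ := h.F_word 0 (y μ + y μ) ((y μ + y μ) + (B + L0 + 1))
  have zB := zero_le' B
  have zL0 := zero_le' L0
  have zy := zero_le' (y μ)
  have zl := lt1 (B + L0)
  have hOV' : ∀ i, i < (y μ + y μ) + (B + L0 + 1) → F i (y μ + y μ) = col (tV + i) := by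
    intro i hi
    have := hOV i hi
    rwa [zero_add] at this
  obtain ⟨t', l', o', ht', ho', ⟨q1, q2, hq12, hq2l, hE1, hE2, hq⟩, S', hS'K, hmid'⟩ :=
    hC tV ((y μ + y μ) + (B + L0 + 1)) (y μ) htV (by grind) (by grind) (by
      intro i hi
      rw [hn0 μ hμ0 i hi, ← h.F_shift i (y μ) (y μ), hOV' (i + y μ) (by grind)]
      congr 1
      ring)
  obtain ⟨d1, d1', g, n1, hd1, hn1⟩ := hp N k col G y F A A1 B1 B2 A2 h t' l' ht'
  -- claim 1
  have claim1 : F (g + o') 0 ∈ S' := by
    obtain ⟨ν, hν1, hν2⟩ : ∃ ν, n1 ≤ ν ∧ d1' ≤ ν := ⟨max n1 d1', le_max_left _ _, le_max_right _ _⟩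
    have hyν := h.y_ge ν
    obtain ⟨hO1, hO2⟩ := hn1 ν hν1
    have zyν := zero_le' (y ν)
    have zg := zero_le' g
    obtain ⟨s, hs1⟩ := exists_sub (a := d1') (b := (y ν + y ν) + g) (by grind)
    have e1 : d1' + (s + s) = y ν + y ν + d1 + (y ν + y ν) := by
      apply add_cancel' (c := d1')
      calc d1' + (s + s) + d1' = (d1' + s) + (d1' + s) := by ring
        _ = ((y ν + y ν) + g) + ((y ν + y ν) + g) := by rw [← hs1]
        _ = (y ν + y ν) + (y ν + y ν) + (g + g) := by ring
        _ = (y ν + y ν) + (y ν + y ν) + (d1 + d1') := by rw [hd1]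
        _ = _ := by ring
    have h1 := midF h.F_word hmid' (Y := y ν + y ν) (p := d1') (s := s) hO2 (by
      rw [e1]
      exact shiftF h.F_shift (y ν + y ν) hO1)
    rw [← hs1] at h1
    have h2 := h.F_shift (g + o') 0 (y ν + y ν)
    rw [zero_add] at h2
    have e2 : y ν + y ν + g + o' = g + o' + (y ν + y ν) := by ring
    rwa [e2, h2] at h1
  -- claim 2
  have claim2 : ∀ (S : Finset (Fin k)) z, z ≤ b → P col G y F K S z →
      F (g + o' + z) 0 ∈ S := by
    intro S z hz hP
    obtain ⟨w, hwB, t, l, o, d, d', n, g2, R, rfl, htl, hm, hzn, hd, hO1, hO2⟩ :=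
      hBW S z hz hP.2
    have zt := zero_le' t
    have zl' := zero_le' l
    have zo := zero_le' o
    have zd := zero_le' d
    have zd' := zero_le' d'
    have zn := zero_le' (y n)
    have zg2 := zero_le' g2
    have zR := zero_le' R
    have zq1 := zero_le' q1
    have zq2 := zero_le' q2
    have zg := zero_le' g
    have zo' := zero_le' o'
    have zz := zero_le' z
    have zd1 := zero_le' d1
    have zd1' := zero_le' d1'
    obtain ⟨ν, hν1, hν2⟩ : ∃ ν, n1 ≤ ν ∧ d1' + (q1 + d') + o ≤ ν :=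
      ⟨max n1 (d1' + (q1 + d') + o), le_max_left _ _, le_max_right _ _⟩
    have hyν := h.y_ge ν
    obtain ⟨hN1, hN2⟩ := hn1 ν hν1
    have zyν := zero_le' (y ν)
    have hRμ : R ≤ μ := by
      refine le_trans ?_ hμB
      grind
    have hdl : d' + l ≤ B := by grind
    have hnl : y n + y n + d + l ≤ B := by grind
    -- occurrence 1
    have hOc1 : OccF col F t l (d1' + (q1 + d')) (y ν + y ν) := by
      intro i hi
      have h1 := hN2 (q1 + (d' + i)) (by grind)
      have h2 := hE1 (d' + i) (by grind)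
      have h3 := hOV' (d' + i) (by grind)
      have h4 := hO2 μ hRμ i hi
      have e1 : d1' + (q1 + d') + i = d1' + (q1 + (d' + i)) := by ring
      rw [e1, h1, ← add_assoc, h2, ← h3, h4]
    -- occurrence 2
    have hOc2 : OccF col F t l
        (y ν + y ν + d1 + (q2 + ((y μ + y μ) + (y n + y n + d))) + (y ν + y ν)) (y ν + y ν) := by
      apply shiftF h.F_shift
      intro i hi
      have h1 := hN1 (q2 + ((y μ + y μ) + (y n + y n + d) + i)) (by grind)
      have h2 := hE2 ((y μ + y μ) + (y n + y n + d) + i) (by grind)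
      have h3 := hOV' ((y μ + y μ) + (y n + y n + d) + i) (by grind)
      have h4 := hO1 i hi
      have e1 : y ν + y ν + d1 + (q2 + ((y μ + y μ) + (y n + y n + d))) + i =
        y ν + y ν + d1 + (q2 + ((y μ + y μ) + (y n + y n + d) + i)) := by ring
      have e2 : (y μ + y μ) + (y n + y n + d) + i = (y n + y n + d + i) + (y μ + y μ) := by ring
      have h5 := h.F_shift (y n + y n + d + i) 0 (y μ + y μ)
      rw [zero_add] at h5
      rw [e1, h1, ← add_assoc, h2, ← h3, e2, h5, h4]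
    obtain ⟨s, hs1⟩ := exists_sub (a := o + (d1' + (q1 + d')))
      (b := (y ν + y ν) + (g + o' + z)) (by grind)
    have e1 : d1' + (q1 + d') + (s + s) =
        y ν + y ν + d1 + (q2 + ((y μ + y μ) + (y n + y n + d))) + (y ν + y ν) := by
      apply add_cancel' (c := (o + o) + (d1' + (q1 + d')))
      calc d1' + (q1 + d') + (s + s) + ((o + o) + (d1' + (q1 + d')))
          = (o + (d1' + (q1 + d')) + s) + (o + (d1' + (q1 + d')) + s) := by ring
        _ = ((y ν + y ν) + (g + o' + z)) + ((y ν + y ν) + (g + o' + z)) := by rw [← hs1]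
        _ = (y ν + y ν) + (y ν + y ν) + (g + g) + (o' + o') + (z + z) := by ring
        _ = (y ν + y ν) + (y ν + y ν) + (d1 + d1') + (q1 + q2 + (y μ + y μ)) +
            ((y n + y n) + (g2 + g2)) := by
          rw [hd1, hq, hzn]
          ring
        _ = (y ν + y ν) + (y ν + y ν) + (d1 + d1') + (q1 + q2 + (y μ + y μ)) +
            ((y n + y n) + (d + d' + (o + o))) := by rw [hd]
        _ = _ := by ring
    have h1 := midF h.F_word hm (Y := y ν + y ν) (p := d1' + (q1 + d')) (s := s) hOc1 (by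
      rw [e1]
      exact hOc2)
    have e2 : d1' + (q1 + d') + s + o = (g + o' + z) + (y ν + y ν) := by
      calc d1' + (q1 + d') + s + o = o + (d1' + (q1 + d')) + s := by ring
        _ = (y ν + y ν) + (g + o' + z) := hs1.symm
        _ = _ := by ring
    have h2 := h.F_shift (g + o' + z) 0 (y ν + y ν)
    rw [zero_add] at h2
    rwa [e2, h2] at h1
  -- end
  obtain ⟨n2, hn2⟩ := h.F_lim 0 (g + o' + b + 1)
  obtain ⟨n', hn'1, hn'2, hn'3⟩ : ∃ n', n2 ≤ n' ∧ b + 1 ≤ n' ∧ n1 ≤ n' :=
    ⟨max n2 (max (b + 1) n1), le_max_left _ _, (le_max_left _ _).trans (le_max_right _ _),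
      (le_max_right _ _).trans (le_max_right _ _)⟩
  have hcolF : ∀ i, i < g + o' + b + 1 → col (y n' + i) = F i 0 :=
    hn2 n' hn'1 (y n') (add_zero _)
  have zg := zero_le' g
  have zo' := zero_le' o'
  have zb := zero_le' b
  have zyn := h.y_ge n'
  have zb1 := lt1 b
  have zb2 := lt1 (g + o' + b)
  refine ⟨y n' + (g + o'), by grind, ⟨S', ⟨?_, hS'K⟩, ?_⟩, ?_⟩
  · rw [hcolF (g + o') (by grind)]
    exact claim1
  · refine ⟨_, t', l', o', d1, d1', n', g + o', n1, rfl, ht', hmid', rfl, ?_, (hn1 n' hn'3).1,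
      fun ν hν => (hn1 ν hν).2⟩
    rw [hd1]
    ring
  · intro S z hz hP
    have e : z + (y n' + (g + o')) = y n' + (g + o' + z) := by ring
    rw [e, hcolF (g + o' + z) (by
      have := lt1_of_le hz
      grind)]
    exact claim2 S z hz hP

end Pool.Agent.H645R2.K
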