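import Mathlib
import Pool.Agent.H645R2.K.Defs

namespace Pool.Agent.H645R2.K

open Pool.Agent.Helper617.RM Pool.Agent.H675R2.HT

universe u

set_option linter.unusedSectionVars false
set_option linter.unusedVariables false

theorem conv : S_conv.{u} := by
  intro N _ _ k B hB
  classical
  obtain ⟨f, hf, hf0, hfI, hfS⟩ := dc
    (Inv := fun e => ∃ j l, e = pr j l ∧ ∀ b, ∃ j', b ≤ j' ∧ ∀ i, i < l → B j' i = B j i)
    (St := fun e e' => ∃ j l, e = pr j l ∧ ∃ j', e' = pr j' (l + 1) ∧ (j < j' ∧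
      ∀ i, i < l → B j' i = B j i))
    (by (repeat' (first | assumption | exact DF.var _ | refine DF.add ?_ ?_ | refine DF.mul ?_ ?_ | refine DF.pr ?_ ?_ | exact DF.const _ | refine DF.app (by assumption) ?_ | refine CT.app1 (by assumption) ?_ | refine CT.app2 (by assumption) ?_ ?_ | exact CT.const _ | refine D0.MemCF ?_ ?_ | refine D0.IsCF ?_ | refine D0.and ?_ ?_ | refine D0.or ?_ ?_ | refine D0.ex ?_ | refine D0.all ?_ | refine D0.iff ?_ ?_ | refine D0.imp ?_ ?_ | refine D0.not ?_ | refine D0.ltF ?_ ?_ | refine D0.leF ?_ ?_ | refine D0.eqF ?_ ?_ | refine CT.eq ?_ ?_ | refine CT.mem ?_ _ | refine D0.memF ?_ (by assumption) | exact D0.true | exact D0.false | exact D0.const _))) (by (repeat' (first | assumption | exact DF.var _ | refine DF.add ?_ ?_ | refine DF.mul ?_ ?_ | refine DF.pr ?_ ?_ | exact DF.const _ | refine DF.app (by assumption) ?_ | refine CT.app1 (by assumption) ?_ | refine CT.app2 (by assumption) ?_ ?_ | exact CT.const _ | refine D0.MemCF ?_ ?_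 | refine D0.IsCF ?_ | refine D0.and ?_ ?_ | refine D0.or ?_ ?_ | refine D0.ex ?_ | refine D0.all ?_ | refine D0.iff ?_ ?_ | refine D0.imp ?_ ?_ | refine D0.not ?_ | refine D0.ltF ?_ ?_ | refine D0.leF ?_ ?_ | refine D0.eqF ?_ ?_ | refine CT.eq ?_ ?_ | refine CT.mem ?_ _ | refine D0.memF ?_ (by assumption) | exact D0.true | exact D0.false | exact D0.const _)))
    (fun e ⟨j, l, he, h1⟩ => by
      have hbit : ∃ β : Fin k, ∀ b, ∃ j', b ≤ j' ∧ (∀ i, i < l → B j' i = B j i) ∧
          B j' l = β := by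
        by_contra hcon
        push Not at hcon
        choose bf hbf using hcon
        obtain ⟨b, hb⟩ := (Finset.univ.image bf).exists_le
        obtain ⟨j', hj', hj''⟩ := h1 b
        exact hbf (B j' l) j' ((hb _ (Finset.mem_image_of_mem _ (Finset.mem_univ _))).trans hj')
          hj'' rfl
      obtain ⟨β, hβ⟩ := hbit
      obtain ⟨j', hj', hj1, hj2⟩ := hβ (j + 1)
      refine ⟨pr j' (l + 1), ⟨j, l, he, j', rfl, lt_of_lt_of_le (lt1 j) hj', hj1⟩, j', l + 1,
        rfl, fun b => ?_⟩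
      obtain ⟨j'', h6, h7, h8⟩ := hβ b
      refine ⟨j'', h6, fun i hi => ?_⟩
      rcases lt_or_eq_of_le (le_of_lt1 hi) with h | rfl
      · exact (h7 i h).trans (hj1 i h).symm
      · exact h8.trans hj2.symm)
    (a := pr 0 0) ⟨0, 0, rfl, fun b => ⟨b, le_rfl, fun i hi => absurd hi
      (not_lt_of_ge (zero_le' i))⟩⟩
  have hfD : DF1 f := hf
  have hshape : ∀ n, ∃ q, f n = pr q n := by
    intro n
    refine ind (P := fun n => ∃ q, f n = pr q n) ?_ ?_ ?_ n
    · (repeat' (first | assumption | exact DF.var _ | refine DF.add ?_ ?_ | refine DF.mul ?_ ?_ | refine DF.pr ?_ ?_ | exact DF.const _ | refine DF.app (by assumption) ?_ | refine CT.app1 (by assumption) ?_ | refine CT.app2 (by assumption) ?_ ?_ | exact CT.const _ | refine D0.MemCF ?_ ?_ | refine D0.IsCF ?_ | refine D0.and ?_ ?_ | refine D0.or ?_ ?_ | refine D0.ex ?_ | refine D0.all ?_ | refine D0.iff ?_ ?_ | refine D0.imp ?_ ?_ | refine D0.not ?_ | refine D0.ltF ?_ ?_ | refine D0.leF ?_ ?_ | refine D0.eqF ?_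 ?_ | refine CT.eq ?_ ?_ | refine CT.mem ?_ _ | refine D0.memF ?_ (by assumption) | exact D0.true | exact D0.false | exact D0.const _))
    · exact ⟨0, hf0⟩
    · rintro n ⟨q, hq⟩
      obtain ⟨q1, R, h1, q', h2, _⟩ := hfS n
      rw [hq] at h1
      rw [h2, ← (pr_inj h1).2]
      exact ⟨q', rfl⟩
  choose J hJ using hshape
  have hJD : DF1 J := by
    have h1 : D0 (fun v : Ctx N => f (v 0) = pr (v 1) (v 0)) := by (repeat' (first | assumption | exact DF.var _ | refine DF.add ?_ ?_ | refine DF.mul ?_ ?_ | refine DF.pr ?_ ?_ | exact DF.const _ | refine DF.app (by assumption) ?_ | refine CT.app1 (by assumption) ?_ | refine CT.app2 (by assumption) ?_ ?_ | exact CT.const _ | refine D0.MemCF ?_ ?_ | refine D0.IsCF ?_ | refine D0.and ?_ ?_ | refine D0.or ?_ ?_ | refine D0.ex ?_ | refine D0.all ?_ | refine D0.iff ?_ ?_ | refine D0.imp ?_ ?_ | refine D0.not ?_ | refine D0.ltF ?_ ?_ | refine D0.leF ?_ ?_ | refine D0.eqF ?_ ?_ | refine CT.eq ?_ ?_ | refine CT.mem ?_ _ | refine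 D0.memF ?_ (by assumption) | exact D0.true | exact D0.false | exact D0.const _))
    refine h1.congr fun v => ?_
    rw [hJ]
    constructor
    · intro h
      exact (pr_inj h).1.symm
    · intro h
      rw [h]
  have hstep : ∀ n, J n < J (n + 1) ∧ ∀ i, i < n → B (J (n + 1)) i = B (J n) i := by
    intro n
    obtain ⟨j, l, h1, j', h2, h3⟩ := hfS n
    rw [hJ] at h1 h2
    obtain ⟨rfl, rfl⟩ := pr_inj h1
    obtain ⟨rfl, _⟩ := pr_inj h2
    exact h3
  have hcoh : ∀ n d i, i < n → B (J (n + d)) i = B (J n) i := by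
    intro n d
    refine ind (P := fun d => ∀ i, i < n → B (J (n + d)) i = B (J n) i) ?_ ?_ ?_ d
    · (repeat' (first | assumption | exact DF.var _ | refine DF.add ?_ ?_ | refine DF.mul ?_ ?_ | refine DF.pr ?_ ?_ | exact DF.const _ | refine DF.app (by assumption) ?_ | refine CT.app1 (by assumption) ?_ | refine CT.app2 (by assumption) ?_ ?_ | exact CT.const _ | refine D0.MemCF ?_ ?_ | refine D0.IsCF ?_ | refine D0.and ?_ ?_ | refine D0.or ?_ ?_ | refine D0.ex ?_ | refine D0.all ?_ | refine D0.iff ?_ ?_ | refine D0.imp ?_ ?_ | refine D0.not ?_ | refine D0.ltF ?_ ?_ | refine D0.leF ?_ ?_ | refine D0.eqF ?_ ?_ | refine CT.eq ?_ ?_ | refine CT.mem ?_ _ | refine D0.memF ?_ (by assumption) | exact D0.true | exact D0.false | exact D0.const _))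
    · intro i hi
      rw [add_zero]
    · intro d ih i hi
      rw [← add_assoc]
      exact ((hstep (n + d)).2 i (lt_of_lt_of_le hi (le_add_of_nonneg_right (zero_le' d)))).trans
        (ih i hi)
  refine ⟨J, fun i => B (J (i + 1)) i, hJD, ?_, le_of_step hJD (fun n => (hstep n).1), ?_⟩
  · apply CT1.of
    (repeat' (first | assumption | exact DF.var _ | refine DF.add ?_ ?_ | refine DF.mul ?_ ?_ | refine DF.pr ?_ ?_ | exact DF.const _ | refine DF.app (by assumption) ?_ | refine CT.app1 (by assumption) ?_ | refine CT.app2 (by assumption) ?_ ?_ | exact CT.const _ | refine D0.MemCF ?_ ?_ | refine D0.IsCF ?_ | refine D0.and ?_ ?_ | refine D0.or ?_ ?_ | refine D0.ex ?_ | refine D0.all ?_ | refine D0.iff ?_ ?_ | refine D0.imp ?_ ?_ | refine D0.not ?_ | refine D0.ltF ?_ ?_ | refine D0.leF ?_ ?_ | refine D0.eqF ?_ ?_ | refine CT.eq ?_ ?_ | refine CT.mem ?_ _ | refine D0.memF ?_ (by assumption) | exact D0.true | exact D0.false | exact D0.const _))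
  · intro n i hi
    obtain ⟨d, rfl⟩ := exists_sub (succ_le' hi)
    rw [hcoh (i + 1) d i (lt1 i)]

end Pool.Agent.H645R2.K
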