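import Mathlib
import Pool.Agent.H645R2.K.Defs

/-! The end of the E-case (helper406). -/

namespace Pool.Agent.H645R2.K
open Pool.Agent.Helper617.RM Pool.Agent.H675R2.HT
universe u
set_option linter.unusedSectionVars false
set_option linter.unusedVariables false

section
variable {N : L2Structure.{u}} [IsModelRCA0 N] [Sig1 N] {k : ℕ}

/-- the set built in the E-case -/
def EF_P0 (col A : N.M → Fin k) (G : Set N.M) (S : Finset (Fin k)) (z : N.M) : Prop :=
  col z ∈ S ∧ ∃ t l o p r, pr t l ∈ G ∧ eS col A G S t l o ∧ Occ col A t l p ∧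
    Occ col A t l r ∧ z = r + (p + (o + o))

/-- witnesses with a bound -/
def EF_Q (col A : N.M → Fin k) (G : Set N.M) (S : Finset (Fin k)) (z w : N.M) : Prop :=
  ∃ t l o p r, w = r + l + (p + l) ∧ (pr t l ∈ G ∧ eS col A G S t l o ∧ Occ col A t l p ∧
    Occ col A t l r ∧ z = r + (p + (o + o)))

theorem EF_P0_D0 {col A : N.M → Fin k} {G : Set N.M} (S : Finset (Fin k)) (hcol : CT1 col)
    (hA : CT1 A) (hG : G ∈ N.Sets) : D0 (fun v => EF_P0 col A G S (v 0)) := by
  unfold EF_P0 eS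
  (repeat' (first | assumption | exact DF.var _ | refine DF.add ?_ ?_ | refine DF.mul ?_ ?_ | refine DF.pr ?_ ?_ | exact DF.const _ | refine DF.app (by assumption) ?_ | refine CT.app1 (by assumption) ?_ | refine CT.app2 (by assumption) ?_ ?_ | exact CT.const _ | refine D0.MemCF ?_ ?_ | refine D0.IsCF ?_ | refine EqW_D0 (by assumption) ?_ ?_ ?_ | refine Occ_D0 (by assumption) (by assumption) ?_ ?_ ?_ | refine OccF_D0 (by assumption) (by assumption) ?_ ?_ ?_ ?_ | refine D0.and ?_ ?_ | refine D0.or ?_ ?_ | refine D0.ex ?_ | refine D0.all ?_ | refine D0.iff ?_ ?_ | refine D0.imp ?_ ?_ | refine D0.not ?_ | refine D0.ltF ?_ ?_ | refine D0.leF ?_ ?_ | refine D0.eqF ?_ ?_ | refine CT.eq ?_ ?_ | refine CT.mem ?_ _ | refine D0.memF ?_ (by assumption) | exact D0.true | exact D0.false | exact D0.const _))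

theorem EF_Q_D0 {col A : N.M → Fin k} {G : Set N.M} (S : Finset (Fin k)) (hcol : CT1 col)
    (hA : CT1 A) (hG : G ∈ N.Sets) : D0 (fun v => EF_Q col A G S (v 0) (v 1)) := by
  unfold EF_Q eS
  (repeat' (first | assumption | exact DF.var _ | refine DF.add ?_ ?_ | refine DF.mul ?_ ?_ | refine DF.pr ?_ ?_ | exact DF.const _ | refine DF.app (by assumption) ?_ | refine CT.app1 (by assumption) ?_ | refine CT.app2 (by assumption) ?_ ?_ | exact CT.const _ | refine D0.MemCF ?_ ?_ | refine D0.IsCF ?_ | refine EqW_D0 (by assumption) ?_ ?_ ?_ | refine Occ_D0 (by assumption) (by assumption) ?_ ?_ ?_ | refine OccF_D0 (by assumption) (by assumption) ?_ ?_ ?_ ?_ | refine D0.and ?_ ?_ | refine D0.or ?_ ?_ | refine D0.ex ?_ | refine D0.all ?_ | refine D0.iff ?_ ?_ | refine D0.imp ?_ ?_ | refine D0.not ?_ | refine D0.ltF ?_ ?_ | refine D0.leF ?_ ?_ | refine D0.eqF ?_ ?_ | refine CT.eq ?_ ?_ | refine CT.mem ?_ _ | refine D0.memF ?_ (by assumption) | exact D0.true | exact D0.false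 | exact D0.const _))

end

theorem efinal (ho : S_occ.{u}) (hs : S_solveK.{u}) : S_efinal.{u} := by
  intro N _ _ k col G y F A A1 B1 B2 A2 h K S hSK hE
  have hcol := h.hcol
  have hG := h.ml.mem
  have hA := h.hA
  refine hs N k col K (fun S' z => S' = S ∧ EF_P0 col A G S z) hcol
    (fun S' => D0.and (D0.const _) (EF_P0_D0 S hcol hA hG)) ?_ ?_
  · rintro S' z ⟨rfl, hz⟩
    exact ⟨hz.1, hSK⟩
  intro b
  obtain ⟨B, hB⟩ := strong_bounding (Q := EF_Q col A G S) (EF_Q_D0 S hcol hA hG) (b + 1)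
  obtain ⟨t', l', o', q1, q2, ht', hq12, hq2, hA1', hA2', hqo, hol, heS⟩ := hE B
  obtain ⟨⟨p', hp'⟩, ⟨d', hd'⟩, -⟩ := ho N k col G y F A A1 B1 B2 A2 h t' l' ht'
  obtain ⟨n1, hn1⟩ := h.A1_lim (d' + l')
  obtain ⟨n2, hn2⟩ := h.A_lim (p' + l')
  obtain ⟨n3, hn3⟩ := h.F_lim 0 (d' + p' + (o' + o') + b + 1)
  have z01 : (0 : N.M) < 1 := by
    have := lt1 (0 : N.M)
    rwa [zero_add] at this
  have z1 := zero_le' n1
  have z2 := zero_le' n2
  have z3 := zero_le' n3
  have zb := zero_le' b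
  have ha1 : ∀ i, i < d' + l' → A1 i = A (y (n1 + n2) + i) := hn1 (n1 + n2) (by grind)
  have ha2 : ∀ i, i < p' + l' → A i = F i (y (n1 + n2)) := hn2 (n1 + n2) (by grind)
  generalize y (n1 + n2) = ya at ha1 ha2
  have zya := zero_le' ya
  have zd := zero_le' d'
  have zp := zero_le' p'
  have zo := zero_le' o'
  have zl := zero_le' l'
  -- claim 1
  have claim1 : F (d' + p' + (o' + o')) 0 ∈ S := by
    have hocc : Occ col A t' l' (ya + d') := by
      intro i hi
      rw [add_assoc, ← ha1 (d' + i) (by grind)]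
      exact hd' i hi
    obtain ⟨w, hw, hwF⟩ := h.F_word p' ya (ya + d' + (o' + o') + l' + 1)
    have h1 := heS (ya + d') hocc w _ hw (by grind) (by
      intro i hi
      rw [← hwF i (by grind), ← ha2 (p' + i) (by grind)]
      exact hp' i hi) (by grind)
    rw [← hwF _ (by grind)] at h1
    have h2 := h.F_shift (d' + p' + (o' + o')) 0 ya
    rw [zero_add] at h2
    rw [← h2]
    have h3 : p' + (ya + d' + (o' + o')) = d' + p' + (o' + o') + ya := by ring
    rw [h3] at h1
    exact h1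
  -- claim 2
  have claim2 : ∀ z, z ≤ b → EF_P0 col A G S z → F (d' + p' + (o' + o') + z) 0 ∈ S := by
    rintro z hzb ⟨-, t0, l0, o0, p0, r0, hz0⟩
    obtain ⟨w0, hw0, t, l, o, p, r, rfl, htl, he, hOp, hOr, hz⟩ :=
      hB z (lt1_of_le hzb) ⟨_, t0, l0, o0, p0, r0, rfl, hz0⟩
    have zl' := zero_le' l
    have zp' := zero_le' p
    have zr' := zero_le' r
    have zo' := zero_le' o
    have zq1 := zero_le' q1
    have zq2 := zero_le' q2
    have hocc : Occ col A t l (ya + d' + q2 + r) := by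
      intro i hi
      have e1 : ya + d' + q2 + r + i = ya + (d' + (q2 + (r + i))) := by ring
      rw [e1, ← ha1 (d' + (q2 + (r + i))) (by grind), hd' (q2 + (r + i)) (by grind),
        ← hA2' (r + i) (by grind)]
      exact hOr i hi
    obtain ⟨w, hw, hwF⟩ := h.F_word (p' + q1 + p) ya (ya + d' + q2 + r + (o + o) + l + 1)
    have h1 := he (ya + d' + q2 + r) hocc w _ hw (by grind) (by
      intro i hi
      have e2 : p' + q1 + p + i = p' + (q1 + (p + i)) := by ring
      rw [← hwF i (by grind), e2, ← ha2 (p' + (q1 + (p + i))) (by grind),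
        hp' (q1 + (p + i)) (by grind), ← hA1' (p + i) (by grind)]
      exact hOp i hi) (by grind)
    rw [← hwF _ (by grind)] at h1
    have h2 := h.F_shift (d' + p' + (o' + o') + z) 0 ya
    rw [zero_add] at h2
    rw [← h2]
    have h3 : p' + q1 + p + (ya + d' + q2 + r + (o + o)) = d' + p' + (o' + o') + z + ya := by
      rw [← hqo, hz]
      ring
    rw [h3] at h1
    exact h1
  -- the end
  have hm3 := hn3 (n1 + n3 + (b + 1)) (by grind) (y (n1 + n3 + (b + 1))) (add_zero _)
  have hm1 := hn1 (n1 + n3 + (b + 1)) (by grind)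
  have hge := h.y_ge (n1 + n3 + (b + 1))
  generalize y (n1 + n3 + (b + 1)) = yn at hm1 hm3 hge
  have zyn := zero_le' yn
  refine ⟨yn + (d' + p' + (o' + o')), by grind, ⟨S, rfl, ?_⟩, ?_⟩
  · refine ⟨?_, t', l', o', p', yn + d', ht', heS, hp', ?_, by ring⟩
    · rw [hm3 _ (by grind)]
      exact claim1
    · intro i hi
      rw [add_assoc, ← hm1 (d' + i) (by grind)]
      exact hd' i hi
  · rintro S' z hzb ⟨rfl, hz⟩
    have e : z + (yn + (d' + p' + (o' + o'))) = yn + (d' + p' + (o' + o') + z) := by ring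
    rw [e, hm3 _ (by grind)]
    exact claim2 z hzb hz

end Pool.Agent.H645R2.K

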