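import Mathlib
import Pool.Agent.H645R2.K.Defs

/-! Existence of minimal languages (the argument of `Pool.Agent.H675R2.HT.Lang` for colourings
with `k` colours). -/

namespace Pool.Agent.H645R2.K

open Pool.Agent.Helper617.RM Pool.Agent.H675R2.HT

universe u

set_option linter.unusedSectionVars false
set_option linter.unusedVariables false

variable {N : L2Structure.{u}} [IsModelRCA0 N] [Sig1 N] {k : ℕ}

theorem EqW.refl (col : N.M → Fin k) (s l : N.M) : EqW col s s l := fun _ _ => rfl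

theorem EqW.symm {col : N.M → Fin k} {s t l : N.M} (h : EqW col s t l) : EqW col t s l :=
  fun i hi => (h i hi).symm

theorem EqW.trans {col : N.M → Fin k} {s t r l : N.M} (h : EqW col s t l) (h' : EqW col t r l) :
    EqW col s r l := fun i hi => (h i hi).trans (h' i hi)

theorem EqW.sub {col : N.M → Fin k} {s t l : N.M} (h : EqW col s t l) {r l' : N.M}
    (hr : r + l' ≤ l) : EqW col (s + r) (t + r) l' := fun i hi => by
  rw [add_assoc, add_assoc]
  exact h (r + i) (lt_of_lt_of_le (by gcongr) hr)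

theorem EqW.mono {col : N.M → Fin k} {s t l : N.M} (h : EqW col s t l) {l' : N.M} (hr : l' ≤ l) :
    EqW col s t l' := fun i hi => h i (lt_of_lt_of_le hi hr)

/-- no word of the finite set coded by `u` occurs inside `[s, s + L)` -/
def Av (col : N.M → Fin k) (u s L : N.M) : Prop :=
  ∀ t l, MemC (pr t l) u → ∀ r, s ≤ r → r + l ≤ s + L → ¬ EqW col r t l

/-- the word `w` does not occur inside `[s, s + L)` -/
def Av1 (col : N.M → Fin k) (w s L : N.M) : Prop :=
  ∀ t l, w = pr t l → ∀ r, s ≤ r → r + l ≤ s + L → ¬ EqW col r t l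

def Avb (col : N.M → Fin k) (u : N.M) : Prop := ∀ L b, ∃ s, b ≤ s ∧ Av col u s L

def Avb1 (col : N.M → Fin k) (u w : N.M) : Prop := ∀ L b, ∃ s, b ≤ s ∧ (Av col u s L ∧ Av1 col w s L)

theorem Av.mono {col : N.M → Fin k} {u s L u' s' L' : N.M} (h : Av col u s L)
    (hu : ∀ r, MemC r u' → MemC r u) (hs : s ≤ s') (hL : s' + L' ≤ s + L) : Av col u' s' L' :=
  fun t l ht r hr hrl => h t l (hu _ ht) r (hs.trans hr) (hrl.trans hL)

/-- all words of a given length have occurrences below some bound -/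
theorem words_bdd {col : N.M → Fin k} (hC : CT1 col) (b l : N.M) :
    ∃ T, ∀ s, b ≤ s → ∃ t, b ≤ t ∧ (t < T ∧ EqW col s t l) := by
  refine ind (P := fun l => ∃ T, ∀ s, b ≤ s → ∃ t, b ≤ t ∧ (t < T ∧ EqW col s t l)) ?_ ?_ ?_ l
  · (repeat' (first | assumption | exact DF.var _ | refine DF.add ?_ ?_ | refine DF.mul ?_ ?_ | refine DF.pr ?_ ?_ | exact DF.const _ | refine DF.app (by assumption) ?_ | refine CT.app1 (by assumption) ?_ | refine CT.app2 (by assumption) ?_ ?_ | exact CT.const _ | refine D0.MemCF ?_ ?_ | refine D0.IsCF ?_ | refine EqW_D0 (by assumption) ?_ ?_ ?_ | refine Occ_D0 (by assumption) (by assumption) ?_ ?_ ?_ | refine OccF_D0 (by assumption) (by assumption) ?_ ?_ ?_ ?_ | refine D0.and ?_ ?_ | refine D0.or ?_ ?_ | refine D0.ex ?_ | refine D0.all ?_ | refine D0.iff ?_ ?_ | refine D0.imp ?_ ?_ | refine D0.not ?_ | refine D0.ltF ?_ ?_ | refine D0.leF ?_ ?_ | refine D0.eqF ?_ ?_ | refine CT.eq ?_ ?_ | refine CT.mem ?_ _ | refine D0.memF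 ?_ (by assumption) | exact D0.true | exact D0.false | exact D0.const _))
  · exact ⟨b + 1, fun s _ => ⟨b, le_rfl, lt1 b, fun i hi => absurd hi (not_lt_of_ge (zero_le' i))⟩⟩
  · rintro l ⟨T, hT⟩
    have hj : ∀ j : Fin k, ∃ T1, ∀ x, x < T → (∃ t, b ≤ t ∧ (EqW col t x l ∧ col (t + l) = j)) →
        ∃ t, t < T1 ∧ (b ≤ t ∧ (EqW col t x l ∧ col (t + l) = j)) := fun j =>
      strong_bounding (Q := fun x t => b ≤ t ∧ (EqW col t x l ∧ col (t + l) = j)) (by (repeat' (first | assumption | exact DF.var _ | refine DF.add ?_ ?_ | refine DF.mul ?_ ?_ | refine DF.pr ?_ ?_ | exact DF.const _ | refine DF.app (by assumption) ?_ | refine CT.app1 (by assumption) ?_ | refine CT.app2 (by assumption) ?_ ?_ | exact CT.const _ | refine D0.MemCF ?_ ?_ | refine D0.IsCF ?_ | refine EqW_D0 (by assumption) ?_ ?_ ?_ | refine Occ_D0 (by assumption) (by assumption) ?_ ?_ ?_ | refine OccF_D0 (by assumption) (by assumption) ?_ ?_ ?_ ?_ | refine D0.and ?_ ?_ | refine D0.or ?_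 ?_ | refine D0.ex ?_ | refine D0.all ?_ | refine D0.iff ?_ ?_ | refine D0.imp ?_ ?_ | refine D0.not ?_ | refine D0.ltF ?_ ?_ | refine D0.leF ?_ ?_ | refine D0.eqF ?_ ?_ | refine CT.eq ?_ ?_ | refine CT.mem ?_ _ | refine D0.memF ?_ (by assumption) | exact D0.true | exact D0.false | exact D0.const _))) T
    have hall : ∀ J : Finset (Fin k), ∃ T1, ∀ j ∈ J, ∀ x, x < T →
        (∃ t, b ≤ t ∧ (EqW col t x l ∧ col (t + l) = j)) →
        ∃ t, t < T1 ∧ (b ≤ t ∧ (EqW col t x l ∧ col (t + l) = j)) := by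
      classical
      intro J
      induction J using Finset.induction_on with
      | empty => exact ⟨0, fun j hj => by simp at hj⟩
      | insert j J _ ih =>
        obtain ⟨T2, hT2⟩ := ih
        obtain ⟨T1, hT1⟩ := hj j
        refine ⟨max T1 T2, fun j' hj' x hx hex => ?_⟩
        rcases Finset.mem_insert.1 hj' with rfl | hj'
        · obtain ⟨t, h1, h2⟩ := hT1 x hx hex
          exact ⟨t, lt_of_lt_of_le h1 (le_max_left _ _), h2⟩
        · obtain ⟨t, h1, h2⟩ := hT2 j' hj' x hx hex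
          exact ⟨t, lt_of_lt_of_le h1 (le_max_right _ _), h2⟩
    obtain ⟨T1, hT1⟩ := hall Finset.univ
    refine ⟨T1, fun s hs => ?_⟩
    obtain ⟨x, hx1, hx2, hx3⟩ := hT s hs
    obtain ⟨t, h1, h2, h3, h4⟩ := hT1 (col (s + l)) (Finset.mem_univ _) x hx2 ⟨s, hs, hx3, rfl⟩
    refine ⟨t, h2, h1, fun i hi => ?_⟩
    rcases lt_or_eq_of_le (le_of_lt1 hi) with h | rfl
    · exact (hx3.trans h3.symm) i h
    · exact h4.symm

theorem exists_minLang {col : N.M → Fin k} (hC : CT1 col) : ∃ G, MinLang col G := by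
  -- the recursion
  have hAvb : ∀ {s : Ctx N → N.M}, Tm s → D0 (fun v => Avb col (s v)) := fun hs => by
    refine D0.all (D0.all (D0.ex (D0.and (D0.le (Tm.var 1) (Tm.var 0)) (D0.all (D0.all (D0.imp
      (MemC_D0 ((Tm.var 1).pr (Tm.var 0)) hs.tail.tail.tail.tail.tail) ?_))))))
    (repeat' (first | assumption | exact DF.var _ | refine DF.add ?_ ?_ | refine DF.mul ?_ ?_ | refine DF.pr ?_ ?_ | exact DF.const _ | refine DF.app (by assumption) ?_ | refine CT.app1 (by assumption) ?_ | refine CT.app2 (by assumption) ?_ ?_ | exact CT.const _ | refine D0.MemCF ?_ ?_ | refine D0.IsCF ?_ | refine EqW_D0 (by assumption) ?_ ?_ ?_ | refine Occ_D0 (by assumption) (by assumption) ?_ ?_ ?_ | refine OccF_D0 (by assumption) (by assumption) ?_ ?_ ?_ ?_ | refine D0.and ?_ ?_ | refine D0.or ?_ ?_ | refine D0.ex ?_ | refine D0.all ?_ | refine D0.iff ?_ ?_ | refine D0.imp ?_ ?_ | refine D0.not ?_ | refine D0.ltF ?_ ?_ | refine D0.leF ?_ ?_ | refine D0.eqF ?_ ?_ |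 refine CT.eq ?_ ?_ | refine CT.mem ?_ _ | refine D0.memF ?_ (by assumption) | exact D0.true | exact D0.false | exact D0.const _))
  have hAvb1 : ∀ {s t : Ctx N → N.M}, Tm s → Tm t → D0 (fun v => Avb1 col (s v) (t v)) :=
    fun hs ht => by
    refine D0.all (D0.all (D0.ex (D0.and (D0.le (Tm.var 1) (Tm.var 0)) (D0.and
      (D0.all (D0.all (D0.imp
      (MemC_D0 ((Tm.var 1).pr (Tm.var 0)) hs.tail.tail.tail.tail.tail) ?_)))
      (D0.all (D0.all (D0.imp (D0.eq ht.tail.tail.tail.tail.tail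
        ((Tm.var 1).pr (Tm.var 0))) ?_)))))))
    · (repeat' (first | assumption | exact DF.var _ | refine DF.add ?_ ?_ | refine DF.mul ?_ ?_ | refine DF.pr ?_ ?_ | exact DF.const _ | refine DF.app (by assumption) ?_ | refine CT.app1 (by assumption) ?_ | refine CT.app2 (by assumption) ?_ ?_ | exact CT.const _ | refine D0.MemCF ?_ ?_ | refine D0.IsCF ?_ | refine EqW_D0 (by assumption) ?_ ?_ ?_ | refine Occ_D0 (by assumption) (by assumption) ?_ ?_ ?_ | refine OccF_D0 (by assumption) (by assumption) ?_ ?_ ?_ ?_ | refine D0.and ?_ ?_ | refine D0.or ?_ ?_ | refine D0.ex ?_ | refine D0.all ?_ | refine D0.iff ?_ ?_ | refine D0.imp ?_ ?_ | refine D0.not ?_ | refine D0.ltF ?_ ?_ | refine D0.leF ?_ ?_ | refine D0.eqF ?_ ?_ | refine CT.eq ?_ ?_ | refine CT.mem ?_ _ | refine D0.memF ?_ (by assumption) | exact D0.true | exact D0.false | exact D0.const _))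
    · (repeat' (first | assumption | exact DF.var _ | refine DF.add ?_ ?_ | refine DF.mul ?_ ?_ | refine DF.pr ?_ ?_ | exact DF.const _ | refine DF.app (by assumption) ?_ | refine CT.app1 (by assumption) ?_ | refine CT.app2 (by assumption) ?_ ?_ | exact CT.const _ | refine D0.MemCF ?_ ?_ | refine D0.IsCF ?_ | refine EqW_D0 (by assumption) ?_ ?_ ?_ | refine Occ_D0 (by assumption) (by assumption) ?_ ?_ ?_ | refine OccF_D0 (by assumption) (by assumption) ?_ ?_ ?_ ?_ | refine D0.and ?_ ?_ | refine D0.or ?_ ?_ | refine D0.ex ?_ | refine D0.all ?_ | refine D0.iff ?_ ?_ | refine D0.imp ?_ ?_ | refine D0.not ?_ | refine D0.ltF ?_ ?_ | refine D0.leF ?_ ?_ | refine D0.eqF ?_ ?_ | refine CT.eq ?_ ?_ | refine CT.mem ?_ _ | refine D0.memF ?_ (by assumption) | exact D0.true | exact D0.false | exact D0.const _))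
  obtain ⟨u0, hu0, hu0'⟩ := exists_isC (N := N) (P := fun _ => False) D0.false (b := 0)
    (fun r hr => hr.elim)
  have hInv : D0 (fun v : Ctx N => ∃ w u, v 0 = pr w u ∧ (IsC u ∧ Avb col u)) := by
    refine D0.ex (D0.ex (D0.and ?_ (D0.and ?_ ?_)))
    · (repeat' (first | assumption | exact DF.var _ | refine DF.add ?_ ?_ | refine DF.mul ?_ ?_ | refine DF.pr ?_ ?_ | exact DF.const _ | refine DF.app (by assumption) ?_ | refine CT.app1 (by assumption) ?_ | refine CT.app2 (by assumption) ?_ ?_ | exact CT.const _ | refine D0.MemCF ?_ ?_ | refine D0.IsCF ?_ | refine EqW_D0 (by assumption) ?_ ?_ ?_ | refine Occ_D0 (by assumption) (by assumption) ?_ ?_ ?_ | refine OccF_D0 (by assumption) (by assumption) ?_ ?_ ?_ ?_ | refine D0.and ?_ ?_ | refine D0.or ?_ ?_ | refine D0.ex ?_ | refine D0.all ?_ | refine D0.iff ?_ ?_ | refine D0.imp ?_ ?_ | refine D0.not ?_ | refine D0.ltF ?_ ?_ | refine D0.leF ?_ ?_ | refine D0.eqF ?_ ?_ | refine CT.eq ?_ ?_ | refine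 CT.mem ?_ _ | refine D0.memF ?_ (by assumption) | exact D0.true | exact D0.false | exact D0.const _))
    · (repeat' (first | assumption | exact DF.var _ | refine DF.add ?_ ?_ | refine DF.mul ?_ ?_ | refine DF.pr ?_ ?_ | exact DF.const _ | refine DF.app (by assumption) ?_ | refine CT.app1 (by assumption) ?_ | refine CT.app2 (by assumption) ?_ ?_ | exact CT.const _ | refine D0.MemCF ?_ ?_ | refine D0.IsCF ?_ | refine EqW_D0 (by assumption) ?_ ?_ ?_ | refine Occ_D0 (by assumption) (by assumption) ?_ ?_ ?_ | refine OccF_D0 (by assumption) (by assumption) ?_ ?_ ?_ ?_ | refine D0.and ?_ ?_ | refine D0.or ?_ ?_ | refine D0.ex ?_ | refine D0.all ?_ | refine D0.iff ?_ ?_ | refine D0.imp ?_ ?_ | refine D0.not ?_ | refine D0.ltF ?_ ?_ | refine D0.leF ?_ ?_ | refine D0.eqF ?_ ?_ | refine CT.eq ?_ ?_ | refine CT.mem ?_ _ | refine D0.memF ?_ (by assumption) | exact D0.true | exact D0.false | exact D0.const _))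
    · exact hAvb (Tm.var 0)
  have hSt : D0 (fun v : Ctx N => ∃ w u u', v 0 = pr w u ∧ (v 1 = pr (w + 1) u' ∧
      ((Avb1 col u w ∧ ∀ r, (MemC r u' ↔ (MemC r u ∨ r = w))) ∨ (¬ Avb1 col u w ∧ u' = u)))) := by
    refine D0.ex (D0.ex (D0.ex (D0.and ?_ (D0.and ?_ (D0.or (D0.and ?_ ?_) (D0.and (D0.not ?_) ?_))))))
    · (repeat' (first | assumption | exact DF.var _ | refine DF.add ?_ ?_ | refine DF.mul ?_ ?_ | refine DF.pr ?_ ?_ | exact DF.const _ | refine DF.app (by assumption) ?_ | refine CT.app1 (by assumption) ?_ | refine CT.app2 (by assumption) ?_ ?_ | exact CT.const _ | refine D0.MemCF ?_ ?_ | refine D0.IsCF ?_ | refine EqW_D0 (by assumption) ?_ ?_ ?_ | refine Occ_D0 (by assumption) (by assumption) ?_ ?_ ?_ | refine OccF_D0 (by assumption) (by assumption) ?_ ?_ ?_ ?_ | refine D0.and ?_ ?_ | refine D0.or ?_ ?_ | refine D0.ex ?_ | refine D0.all ?_ | refine D0.iff ?_ ?_ | refine D0.imp ?_ ?_ | refine D0.not ?_ | refine D0.ltF ?_ ?_ | refine D0.leF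 ?_ ?_ | refine D0.eqF ?_ ?_ | refine CT.eq ?_ ?_ | refine CT.mem ?_ _ | refine D0.memF ?_ (by assumption) | exact D0.true | exact D0.false | exact D0.const _))
    · (repeat' (first | assumption | exact DF.var _ | refine DF.add ?_ ?_ | refine DF.mul ?_ ?_ | refine DF.pr ?_ ?_ | exact DF.const _ | refine DF.app (by assumption) ?_ | refine CT.app1 (by assumption) ?_ | refine CT.app2 (by assumption) ?_ ?_ | exact CT.const _ | refine D0.MemCF ?_ ?_ | refine D0.IsCF ?_ | refine EqW_D0 (by assumption) ?_ ?_ ?_ | refine Occ_D0 (by assumption) (by assumption) ?_ ?_ ?_ | refine OccF_D0 (by assumption) (by assumption) ?_ ?_ ?_ ?_ | refine D0.and ?_ ?_ | refine D0.or ?_ ?_ | refine D0.ex ?_ | refine D0.all ?_ | refine D0.iff ?_ ?_ | refine D0.imp ?_ ?_ | refine D0.not ?_ | refine D0.ltF ?_ ?_ | refine D0.leF ?_ ?_ | refine D0.eqF ?_ ?_ | refine CT.eq ?_ ?_ | refine CT.mem ?_ _ | refine D0.memF ?_ (by assumption) | exact D0.true | exact D0.false | exact D0.const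 _))
    · exact hAvb1 (Tm.var 1) (Tm.var 2)
    · (repeat' (first | assumption | exact DF.var _ | refine DF.add ?_ ?_ | refine DF.mul ?_ ?_ | refine DF.pr ?_ ?_ | exact DF.const _ | refine DF.app (by assumption) ?_ | refine CT.app1 (by assumption) ?_ | refine CT.app2 (by assumption) ?_ ?_ | exact CT.const _ | refine D0.MemCF ?_ ?_ | refine D0.IsCF ?_ | refine EqW_D0 (by assumption) ?_ ?_ ?_ | refine Occ_D0 (by assumption) (by assumption) ?_ ?_ ?_ | refine OccF_D0 (by assumption) (by assumption) ?_ ?_ ?_ ?_ | refine D0.and ?_ ?_ | refine D0.or ?_ ?_ | refine D0.ex ?_ | refine D0.all ?_ | refine D0.iff ?_ ?_ | refine D0.imp ?_ ?_ | refine D0.not ?_ | refine D0.ltF ?_ ?_ | refine D0.leF ?_ ?_ | refine D0.eqF ?_ ?_ | refine CT.eq ?_ ?_ | refine CT.mem ?_ _ | refine D0.memF ?_ (by assumption) | exact D0.true | exact D0.false | exact D0.const _))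
    · exact hAvb1 (Tm.var 1) (Tm.var 2)
    · (repeat' (first | assumption | exact DF.var _ | refine DF.add ?_ ?_ | refine DF.mul ?_ ?_ | refine DF.pr ?_ ?_ | exact DF.const _ | refine DF.app (by assumption) ?_ | refine CT.app1 (by assumption) ?_ | refine CT.app2 (by assumption) ?_ ?_ | exact CT.const _ | refine D0.MemCF ?_ ?_ | refine D0.IsCF ?_ | refine EqW_D0 (by assumption) ?_ ?_ ?_ | refine Occ_D0 (by assumption) (by assumption) ?_ ?_ ?_ | refine OccF_D0 (by assumption) (by assumption) ?_ ?_ ?_ ?_ | refine D0.and ?_ ?_ | refine D0.or ?_ ?_ | refine D0.ex ?_ | refine D0.all ?_ | refine D0.iff ?_ ?_ | refine D0.imp ?_ ?_ | refine D0.not ?_ | refine D0.ltF ?_ ?_ | refine D0.leF ?_ ?_ | refine D0.eqF ?_ ?_ | refine CT.eq ?_ ?_ | refine CT.mem ?_ _ | refine D0.memF ?_ (by assumption) | exact D0.true | exact D0.false | exact D0.const _))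
  obtain ⟨f, hf, hf0, hfI, hfS⟩ := dc (Inv := fun e => ∃ w u, e = pr w u ∧ (IsC u ∧ Avb col u))
    (St := fun e e' => ∃ w u u', e = pr w u ∧ (e' = pr (w + 1) u' ∧
      ((Avb1 col u w ∧ ∀ r, (MemC r u' ↔ (MemC r u ∨ r = w))) ∨ (¬ Avb1 col u w ∧ u' = u))))
    hInv hSt (fun e ⟨w, u, he, hu, hav⟩ => by
    by_cases hw : Avb1 col u w
    · obtain ⟨u', hu', hu''⟩ := exists_isC (P := fun r => MemC r u ∨ r = w) (by (repeat' (first | assumption | exact DF.var _ | refine DF.add ?_ ?_ | refine DF.mul ?_ ?_ | refine DF.pr ?_ ?_ | exact DF.const _ | refine DF.app (by assumption) ?_ | refine CT.app1 (by assumption) ?_ | refine CT.app2 (by assumption) ?_ ?_ | exact CT.const _ | refine D0.MemCF ?_ ?_ | refine D0.IsCF ?_ | refine EqW_D0 (by assumption) ?_ ?_ ?_ | refine Occ_D0 (by assumption) (by assumption) ?_ ?_ ?_ | refine OccF_D0 (by assumption) (by assumption) ?_ ?_ ?_ ?_ | refine D0.and ?_ ?_ | refine D0.or ?_ ?_ | refine D0.ex ?_ | refine D0.all ?_ |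 refine D0.iff ?_ ?_ | refine D0.imp ?_ ?_ | refine D0.not ?_ | refine D0.ltF ?_ ?_ | refine D0.leF ?_ ?_ | refine D0.eqF ?_ ?_ | refine CT.eq ?_ ?_ | refine CT.mem ?_ _ | refine D0.memF ?_ (by assumption) | exact D0.true | exact D0.false | exact D0.const _)))
        (b := u + (w + 1)) (fun r hr => by
          rcases hr with hr | rfl
          · exact lt_of_lt_of_le hr.lt (le_add_of_nonneg_right (zero_le' _))
          · exact lt_of_lt_of_le (lt1 r) (le_add_of_nonneg_left (zero_le' _)))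
      refine ⟨pr (w + 1) u', ⟨w, u, u', he, rfl, Or.inl ⟨hw, hu''⟩⟩, w + 1, u', rfl, hu', ?_⟩
      intro L b
      obtain ⟨s, hs, h1, h2⟩ := hw L b
      refine ⟨s, hs, fun t l ht r hr hrl => ?_⟩
      rcases (hu'' _).1 ht with h | h
      · exact h1 t l h r hr hrl
      · exact h2 t l h.symm r hr hrl
    · exact ⟨pr (w + 1) u, ⟨w, u, u, he, rfl, Or.inr ⟨hw, rfl⟩⟩, w + 1, u, rfl, hu, hav⟩)
    (a := pr 0 u0) ⟨0, u0, rfl, hu0, fun L b => ⟨b, le_rfl, fun t l ht => by
      exact absurd ((hu0' _).1 ht) id⟩⟩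
  -- the shape of the values
  have hshape : ∀ n, ∃ u, f n = pr n u := by
    intro n
    have key : ∀ a, a = f n → ∃ u, a = pr n u := by
      refine ind (P := fun n => ∀ a, a = f n → ∃ u, a = pr n u) ?_ ?_ ?_ n
      · exact D0.all (D0.imp (fun_D0 hf (Tm.var 1) (Tm.var 0)) (by (repeat' (first | assumption | exact DF.var _ | refine DF.add ?_ ?_ | refine DF.mul ?_ ?_ | refine DF.pr ?_ ?_ | exact DF.const _ | refine DF.app (by assumption) ?_ | refine CT.app1 (by assumption) ?_ | refine CT.app2 (by assumption) ?_ ?_ | exact CT.const _ | refine D0.MemCF ?_ ?_ | refine D0.IsCF ?_ | refine EqW_D0 (by assumption) ?_ ?_ ?_ | refine Occ_D0 (by assumption) (by assumption) ?_ ?_ ?_ | refine OccF_D0 (by assumption) (by assumption) ?_ ?_ ?_ ?_ | refine D0.and ?_ ?_ | refine D0.or ?_ ?_ | refine D0.ex ?_ | refine D0.all ?_ | refine D0.iff ?_ ?_ | refine D0.imp ?_ ?_ | refine D0.not ?_ | refine D0.ltF ?_ ?_ | refine D0.leF ?_ ?_ | refine D0.eqF ?_ ?_ | refine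 CT.eq ?_ ?_ | refine CT.mem ?_ _ | refine D0.memF ?_ (by assumption) | exact D0.true | exact D0.false | exact D0.const _))))
      · rintro a rfl; exact ⟨u0, hf0⟩
      · rintro n ih a rfl
        obtain ⟨u, hu⟩ := ih _ rfl
        obtain ⟨w, u1, u', h1, h2, _⟩ := hfS n
        rw [hu] at h1
        rw [h2, ← (pr_inj h1).1]
        exact ⟨u', rfl⟩
    exact key _ rfl
  choose U hU using hshape
  have hU1 : ∀ n, IsC (U n) ∧ Avb col (U n) := by
    intro n
    obtain ⟨w, u, h1, h2⟩ := hfI n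
    rw [hU n] at h1
    rw [(pr_inj h1).2]
    exact h2
  have hUS : ∀ n, ((Avb1 col (U n) n ∧ ∀ r, (MemC r (U (n + 1)) ↔ (MemC r (U n) ∨ r = n))) ∨
      (¬ Avb1 col (U n) n ∧ U (n + 1) = U n)) := by
    intro n
    obtain ⟨w, u, u', h1, h2, h3⟩ := hfS n
    rw [hU] at h1 h2
    obtain ⟨rfl, rfl⟩ := pr_inj h1
    rw [(pr_inj h2).2]
    exact h3
  have hUD : D0 (fun v => v 1 = U (v 0)) := by
    refine (D0.ex (P := fun v e => e = f (v 0) ∧ e = pr (v 0) (v 1))
      (D0.and (fun_D0 hf (Tm.var 1) (Tm.var 0)) (by (repeat' (first | assumption | exact DF.var _ | refine DF.add ?_ ?_ | refine DF.mul ?_ ?_ | refine DF.pr ?_ ?_ | exact DF.const _ | refine DF.app (by assumption) ?_ | refine CT.app1 (by assumption) ?_ | refine CT.app2 (by assumption) ?_ ?_ | exact CT.const _ | refine D0.MemCF ?_ ?_ | refine D0.IsCF ?_ | refine EqW_D0 (by assumption) ?_ ?_ ?_ | refine Occ_D0 (by assumption) (by assumption) ?_ ?_ ?_ | refine OccF_D0 (by assumption) (by assumption)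 ?_ ?_ ?_ ?_ | refine D0.and ?_ ?_ | refine D0.or ?_ ?_ | refine D0.ex ?_ | refine D0.all ?_ | refine D0.iff ?_ ?_ | refine D0.imp ?_ ?_ | refine D0.not ?_ | refine D0.ltF ?_ ?_ | refine D0.leF ?_ ?_ | refine D0.eqF ?_ ?_ | refine CT.eq ?_ ?_ | refine CT.mem ?_ _ | refine D0.memF ?_ (by assumption) | exact D0.true | exact D0.false | exact D0.const _))))).congr fun v => ?_
    constructor
    · rintro ⟨e, he, h⟩
      rw [he, hU] at h
      exact (pr_inj h).2.symm
    · intro h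
      exact ⟨f (v 0), rfl, by rw [h, hU]⟩
  have hUstep : ∀ n r, MemC r (U n) → MemC r (U (n + 1)) := by
    intro n r hr
    rcases hUS n with ⟨_, h⟩ | ⟨_, h⟩
    · exact (h r).2 (Or.inl hr)
    · rw [h]; exact hr
  have hUmono : ∀ d n r, MemC r (U n) → MemC r (U (n + d)) := by
    intro d n r hr
    have key : ∀ a, a = U (n + d) → MemC r a := by
      refine ind (P := fun d => ∀ a, a = U (n + d) → MemC r a) ?_ ?_ ?_ d
      · exact D0.all (D0.imp (fun_D0 hUD ((Tm.const n).add (Tm.var 1)) (Tm.var 0)) (by (repeat' (first | assumption | exact DF.var _ | refine DF.add ?_ ?_ | refine DF.mul ?_ ?_ | refine DF.pr ?_ ?_ | exact DF.const _ | refine DF.app (by assumption) ?_ | refine CT.app1 (by assumption) ?_ | refine CT.app2 (by assumption) ?_ ?_ | exact CT.const _ | refine D0.MemCF ?_ ?_ | refine D0.IsCF ?_ | refine EqW_D0 (by assumption) ?_ ?_ ?_ | refine Occ_D0 (by assumption) (by assumption) ?_ ?_ ?_ | refine OccF_D0 (by assumption) (by assumption)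 ?_ ?_ ?_ ?_ | refine D0.and ?_ ?_ | refine D0.or ?_ ?_ | refine D0.ex ?_ | refine D0.all ?_ | refine D0.iff ?_ ?_ | refine D0.imp ?_ ?_ | refine D0.not ?_ | refine D0.ltF ?_ ?_ | refine D0.leF ?_ ?_ | refine D0.eqF ?_ ?_ | refine CT.eq ?_ ?_ | refine CT.mem ?_ _ | refine D0.memF ?_ (by assumption) | exact D0.true | exact D0.false | exact D0.const _))))
      · rintro a rfl; rw [add_zero]; exact hr
      · rintro d ih a rfl
        rw [← add_assoc]
        exact hUstep _ _ (ih _ rfl)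
    exact key _ rfl
  have hUle : ∀ n m r, n ≤ m → MemC r (U n) → MemC r (U m) := by
    intro n m r hnm hr
    obtain ⟨d, rfl⟩ := exists_sub hnm
    exact hUmono d n r hr
  have hFD : D0 (fun v : Ctx N => ∃ n u, u = U n ∧ MemC (v 0) u) :=
    D0.ex (D0.ex (D0.and (fun_D0 hUD (Tm.var 1) (Tm.var 0)) (by (repeat' (first | assumption | exact DF.var _ | refine DF.add ?_ ?_ | refine DF.mul ?_ ?_ | refine DF.pr ?_ ?_ | exact DF.const _ | refine DF.app (by assumption) ?_ | refine CT.app1 (by assumption) ?_ | refine CT.app2 (by assumption) ?_ ?_ | exact CT.const _ | refine D0.MemCF ?_ ?_ | refine D0.IsCF ?_ | refine EqW_D0 (by assumption) ?_ ?_ ?_ | refine Occ_D0 (by assumption) (by assumption) ?_ ?_ ?_ | refine OccF_D0 (by assumption) (by assumption) ?_ ?_ ?_ ?_ | refine D0.and ?_ ?_ | refine D0.or ?_ ?_ | refine D0.ex ?_ | refine D0.all ?_ | refine D0.iff ?_ ?_ | refine D0.imp ?_ ?_ | refine D0.not ?_ | refine D0.ltF ?_ ?_ | refine D0.leF ?_ ?_ | refine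 D0.eqF ?_ ?_ | refine CT.eq ?_ ?_ | refine CT.mem ?_ _ | refine D0.memF ?_ (by assumption) | exact D0.true | exact D0.false | exact D0.const _)))))
  -- a word that is not forbidden occurs often
  have hocc : ∀ v, (¬ ∃ n u, u = U n ∧ MemC v u) → ∃ L b, ∀ s, b ≤ s → Av col (U v) s L →
      ∃ t l, v = pr t l ∧ ∃ r, s ≤ r ∧ r + l ≤ s + L ∧ EqW col r t l := by
    intro v hv
    have h1 : ¬ Avb1 col (U v) v := by
      intro h
      rcases hUS v with ⟨_, h2⟩ | ⟨h2, _⟩
      · exact hv ⟨v + 1, _, rfl, (h2 v).2 (Or.inr rfl)⟩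
      · exact h2 h
    unfold Avb1 at h1
    push Not at h1
    obtain ⟨L, b, h⟩ := h1
    refine ⟨L, b, fun s hs hav => ?_⟩
    have h2 := h s hs hav
    unfold Av1 at h2
    push Not at h2
    exact h2
  refine ⟨{v | ¬ ∃ n u, u = U n ∧ MemC v u}, comp_D0 (P := fun v => ¬ ∃ n u, u = U n ∧ MemC v u)
    hFD.not, ?_, ?_, ?_⟩
  · intro L b
    by_contra hcon
    push Not at hcon
    obtain ⟨T, hT⟩ := words_bdd hC b L
    obtain ⟨B, hB⟩ := bounding (Q := fun t n => b ≤ t → ∃ u, u = U n ∧ MemC (pr t L) u)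
      (D0.imp (by (repeat' (first | assumption | exact DF.var _ | refine DF.add ?_ ?_ | refine DF.mul ?_ ?_ | refine DF.pr ?_ ?_ | exact DF.const _ | refine DF.app (by assumption) ?_ | refine CT.app1 (by assumption) ?_ | refine CT.app2 (by assumption) ?_ ?_ | exact CT.const _ | refine D0.MemCF ?_ ?_ | refine D0.IsCF ?_ | refine EqW_D0 (by assumption) ?_ ?_ ?_ | refine Occ_D0 (by assumption) (by assumption) ?_ ?_ ?_ | refine OccF_D0 (by assumption) (by assumption) ?_ ?_ ?_ ?_ | refine D0.and ?_ ?_ | refine D0.or ?_ ?_ | refine D0.ex ?_ | refine D0.all ?_ | refine D0.iff ?_ ?_ | refine D0.imp ?_ ?_ | refine D0.not ?_ | refine D0.ltF ?_ ?_ | refine D0.leF ?_ ?_ | refine D0.eqF ?_ ?_ | refine CT.eq ?_ ?_ | refine CT.mem ?_ _ | refine D0.memF ?_ (by assumption) | exact D0.true | exact D0.false | exact D0.const _))) (D0.ex (D0.and (fun_D0 hUD (Tm.var 1) (Tm.var 0)) (by (repeat' (first | assumption | exact DF.var _ | refine DF.add ?_ ?_ | refine DF.mul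 ?_ ?_ | refine DF.pr ?_ ?_ | exact DF.const _ | refine DF.app (by assumption) ?_ | refine CT.app1 (by assumption) ?_ | refine CT.app2 (by assumption) ?_ ?_ | exact CT.const _ | refine D0.MemCF ?_ ?_ | refine D0.IsCF ?_ | refine EqW_D0 (by assumption) ?_ ?_ ?_ | refine Occ_D0 (by assumption) (by assumption) ?_ ?_ ?_ | refine OccF_D0 (by assumption) (by assumption) ?_ ?_ ?_ ?_ | refine D0.and ?_ ?_ | refine D0.or ?_ ?_ | refine D0.ex ?_ | refine D0.all ?_ | refine D0.iff ?_ ?_ | refine D0.imp ?_ ?_ | refine D0.not ?_ | refine D0.ltF ?_ ?_ | refine D0.leF ?_ ?_ | refine D0.eqF ?_ ?_ | refine CT.eq ?_ ?_ | refine CT.mem ?_ _ | refine D0.memF ?_ (by assumption) | exact D0.true | exact D0.false | exact D0.const _)))))) T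
      (fun t _ => by
        by_cases hbt : b ≤ t
        · have h3 : ∃ n u, u = U n ∧ MemC (pr t L) u := by
            by_contra h4
            exact (hcon t hbt) (fun n u hu hm => h4 ⟨n, u, hu, hm⟩)
          obtain ⟨n, h⟩ := h3
          exact ⟨n, fun _ => h⟩
        · exact ⟨0, fun h => absurd h hbt⟩)
    obtain ⟨s, hs, hav⟩ := (hU1 B).2 L b
    obtain ⟨t, hbt, htT, heq⟩ := hT s hs
    obtain ⟨n, hn, h⟩ := hB t htT
    obtain ⟨u, rfl, hu⟩ := h hbt
    exact hav t L (hUle _ _ _ hn.le hu) s le_rfl le_rfl heq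
  · intro t l r t' l' hG hr heq hF
    obtain ⟨n0, _, rfl, hn0⟩ := hF
    obtain ⟨L, b, hLb⟩ := hocc _ hG
    obtain ⟨s, hs, hav⟩ := (hU1 (max n0 (pr t l))).2 L b
    obtain ⟨t1, l1, e, r1, h1, h2, h3⟩ := hLb s hs
      (hav.mono (fun r hr => hUle _ _ _ (le_max_right _ _) hr) le_rfl le_rfl)
    obtain ⟨rfl, rfl⟩ := pr_inj e
    refine hav t' l' (hUle _ _ _ (le_max_left _ _) hn0) (r1 + r)
      (h1.trans (le_add_of_nonneg_right (zero_le' _))) ?_ ((h3.sub hr).trans heq)
    rw [add_assoc]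
    exact (add_le_add_right hr r1).trans h2
  · intro t l hG
    obtain ⟨L, b, hLb⟩ := hocc _ hG
    refine ⟨L, fun t' l' hG' hL => ?_⟩
    obtain ⟨L', b', hLb'⟩ := hocc _ hG'
    obtain ⟨s, hs, hav⟩ := (hU1 (max (pr t l) (pr t' l'))).2 L' (max b b')
    obtain ⟨t1, l1, e, r1, h1, h2, h3⟩ := hLb' s ((le_max_right _ _).trans hs)
      (hav.mono (fun r hr => hUle _ _ _ (le_max_right _ _) hr) le_rfl le_rfl)
    obtain ⟨rfl, rfl⟩ := pr_inj e
    obtain ⟨t2, l2, e, r2, h4, h5, h6⟩ := hLb r1 ((le_max_left _ _).trans (hs.trans h1))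
      (hav.mono (fun r hr => hUle _ _ _ (le_max_left _ _) hr) h1
        ((add_le_add_right hL r1).trans h2))
    obtain ⟨rfl, rfl⟩ := pr_inj e
    obtain ⟨q, rfl⟩ := exists_sub h4
    have hq : q + l ≤ L := by
      rw [add_assoc] at h5
      exact le_of_add_le_add_left h5
    exact ⟨q, hq.trans hL, (h3.symm.sub (hq.trans hL)).trans h6⟩

theorem minlang : S_minlang.{u} := fun _ _ _ _ _ h => exists_minLang h

end Pool.Agent.H645R2.K
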