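import Mathlib
import Pool.Agent.H645R2.K.MinLangEx

/-! The generic case: if no extension of a marked word is bad, there is a solution. -/

namespace Pool.Agent.H645R2.K

open Pool.Agent.Helper617.RM Pool.Agent.H675R2.HT

universe u

set_option linter.unusedSectionVars false
set_option linter.unusedVariables false

theorem genericB : S_generic.{u} := by
  intro N _ _ k col G hcol hML t0 l0 o h0 hol hnb
  have hG := hML.mem
  set j := col (t0 + o) with hj
  obtain ⟨f, hf, hf0, hfI, hfS⟩ := dc (N := N)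
    (Inv := fun e => ∃ t l z, e = pr (pr t l) z ∧ (pr t l ∈ G ∧ (l0 ≤ l ∧ EqW col t t0 l0)))
    (St := fun e e' => ∃ t l z, e = pr (pr t l) z ∧ ∃ t' l' z', e' = pr (pr t' l') z' ∧
      (z < z' ∧ (EqW col z' t l ∧ (l ≤ l' ∧ (EqW col t' t l ∧ (z' + (o + o) < l' ∧
        col (t' + (z' + (o + o))) = j))))))
    (by (repeat' (first | assumption | exact DF.var _ | refine DF.add ?_ ?_ | refine DF.mul ?_ ?_ | refine DF.pr ?_ ?_ | exact DF.const _ | refine DF.app (by assumption) ?_ | refine CT.app1 (by assumption) ?_ | refine CT.app2 (by assumption) ?_ ?_ | exact CT.const _ | refine D0.MemCF ?_ ?_ | refine D0.IsCF ?_ | refine EqW_D0 (by assumption) ?_ ?_ ?_ | refine Occ_D0 (by assumption) (by assumption) ?_ ?_ ?_ | refine OccF_D0 (by assumption) (by assumption) ?_ ?_ ?_ ?_ | refine D0.and ?_ ?_ | refine D0.or ?_ ?_ | refine D0.ex ?_ | refine D0.all ?_ | refine D0.iff ?_ ?_ | refine D0.imp ?_ ?_ | refine D0.not ?_ | refine D0.ltF ?_ ?_ | refine D0.leF ?_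 ?_ | refine D0.eqF ?_ ?_ | refine CT.eq ?_ ?_ | refine CT.mem ?_ _ | refine D0.memF ?_ (by assumption) | exact D0.true | exact D0.false | exact D0.const _))) (by (repeat' (first | assumption | exact DF.var _ | refine DF.add ?_ ?_ | refine DF.mul ?_ ?_ | refine DF.pr ?_ ?_ | exact DF.const _ | refine DF.app (by assumption) ?_ | refine CT.app1 (by assumption) ?_ | refine CT.app2 (by assumption) ?_ ?_ | exact CT.const _ | refine D0.MemCF ?_ ?_ | refine D0.IsCF ?_ | refine EqW_D0 (by assumption) ?_ ?_ ?_ | refine Occ_D0 (by assumption) (by assumption) ?_ ?_ ?_ | refine OccF_D0 (by assumption) (by assumption) ?_ ?_ ?_ ?_ | refine D0.and ?_ ?_ | refine D0.or ?_ ?_ | refine D0.ex ?_ | refine D0.all ?_ | refine D0.iff ?_ ?_ | refine D0.imp ?_ ?_ | refine D0.not ?_ | refine D0.ltF ?_ ?_ | refine D0.leF ?_ ?_ | refine D0.eqF ?_ ?_ | refine CT.eq ?_ ?_ | refine CT.mem ?_ _ | refine D0.memF ?_ (by assumption) | exact D0.true | exact D0.false | exact D0.const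 _))) (by
      rintro e ⟨t, l, z, rfl, h1, h2, h3⟩
      have h4 := hnb t l (z + 1) h1 h2 h3
      unfold badC at h4
      push Not at h4
      obtain ⟨z', hz', h5, t', l', h6, h7, h8, h9, h10⟩ := h4
      exact ⟨pr (pr t' l') z', ⟨t, l, z, rfl, t', l', z', rfl, lt_of_lt_of_le (lt1 z) hz',
        h5, h7, h8, h9, h10⟩, t', l', z', rfl, h6, h2.trans h7, (h8.mono h2).trans h3⟩)
    (a := pr (pr t0 l0) 0) ⟨t0, l0, 0, rfl, h0, le_rfl, EqW.refl _ _ _⟩
  have hf' : DF1 f := hf
  choose T L Z hTLZ hTG hL0 hTE using hfI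
  have hLD : DF1 L := by
    show D0 _
    refine (D0.ex (P := fun v e => e = f (v 0) ∧ ∃ t z, e = pr (pr t (v 1)) z) (by (repeat' (first | assumption | exact DF.var _ | refine DF.add ?_ ?_ | refine DF.mul ?_ ?_ | refine DF.pr ?_ ?_ | exact DF.const _ | refine DF.app (by assumption) ?_ | refine CT.app1 (by assumption) ?_ | refine CT.app2 (by assumption) ?_ ?_ | exact CT.const _ | refine D0.MemCF ?_ ?_ | refine D0.IsCF ?_ | refine EqW_D0 (by assumption) ?_ ?_ ?_ | refine Occ_D0 (by assumption) (by assumption) ?_ ?_ ?_ | refine OccF_D0 (by assumption) (by assumption) ?_ ?_ ?_ ?_ | refine D0.and ?_ ?_ | refine D0.or ?_ ?_ | refine D0.ex ?_ | refine D0.all ?_ | refine D0.iff ?_ ?_ | refine D0.imp ?_ ?_ | refine D0.not ?_ | refine D0.ltF ?_ ?_ | refine D0.leF ?_ ?_ | refine D0.eqF ?_ ?_ | refine CT.eq ?_ ?_ | refine CT.mem ?_ _ | refine D0.memF ?_ (by assumption) | exact D0.true | exact D0.false | exact D0.const _)))).congr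
      fun v => ?_
    constructor
    · rintro ⟨e, he, t, z, h⟩
      rw [he, hTLZ] at h
      exact (pr_inj (pr_inj h).1).2.symm
    · intro h
      exact ⟨f (v 0), rfl, T (v 0), Z (v 0), by rw [h, hTLZ]⟩
  have hTD : DF1 T := by
    show D0 _
    refine (D0.ex (P := fun v e => e = f (v 0) ∧ ∃ l z, e = pr (pr (v 1) l) z) (by (repeat' (first | assumption | exact DF.var _ | refine DF.add ?_ ?_ | refine DF.mul ?_ ?_ | refine DF.pr ?_ ?_ | exact DF.const _ | refine DF.app (by assumption) ?_ | refine CT.app1 (by assumption) ?_ | refine CT.app2 (by assumption) ?_ ?_ | exact CT.const _ | refine D0.MemCF ?_ ?_ | refine D0.IsCF ?_ | refine EqW_D0 (by assumption) ?_ ?_ ?_ | refine Occ_D0 (by assumption) (by assumption) ?_ ?_ ?_ | refine OccF_D0 (by assumption) (by assumption) ?_ ?_ ?_ ?_ | refine D0.and ?_ ?_ | refine D0.or ?_ ?_ | refine D0.ex ?_ | refine D0.all ?_ | refine D0.iff ?_ ?_ | refine D0.imp ?_ ?_ | refine D0.not ?_ | refine D0.ltF ?_ ?_ | refine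 D0.leF ?_ ?_ | refine D0.eqF ?_ ?_ | refine CT.eq ?_ ?_ | refine CT.mem ?_ _ | refine D0.memF ?_ (by assumption) | exact D0.true | exact D0.false | exact D0.const _)))).congr
      fun v => ?_
    constructor
    · rintro ⟨e, he, t, z, h⟩
      rw [he, hTLZ] at h
      exact (pr_inj (pr_inj h).1).1.symm
    · intro h
      exact ⟨f (v 0), rfl, L (v 0), Z (v 0), by rw [h, hTLZ]⟩
  have hZD : DF1 Z := by
    show D0 _
    refine (D0.ex (P := fun v e => e = f (v 0) ∧ ∃ t l, e = pr (pr t l) (v 1)) (by (repeat' (first | assumption | exact DF.var _ | refine DF.add ?_ ?_ | refine DF.mul ?_ ?_ | refine DF.pr ?_ ?_ | exact DF.const _ | refine DF.app (by assumption) ?_ | refine CT.app1 (by assumption) ?_ | refine CT.app2 (by assumption) ?_ ?_ | exact CT.const _ | refine D0.MemCF ?_ ?_ | refine D0.IsCF ?_ | refine EqW_D0 (by assumption) ?_ ?_ ?_ | refine Occ_D0 (by assumption) (by assumption) ?_ ?_ ?_ | refine OccF_D0 (by assumption) (by assumption) ?_ ?_ ?_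 ?_ | refine D0.and ?_ ?_ | refine D0.or ?_ ?_ | refine D0.ex ?_ | refine D0.all ?_ | refine D0.iff ?_ ?_ | refine D0.imp ?_ ?_ | refine D0.not ?_ | refine D0.ltF ?_ ?_ | refine D0.leF ?_ ?_ | refine D0.eqF ?_ ?_ | refine CT.eq ?_ ?_ | refine CT.mem ?_ _ | refine D0.memF ?_ (by assumption) | exact D0.true | exact D0.false | exact D0.const _)))).congr
      fun v => ?_
    constructor
    · rintro ⟨e, he, t, z, h⟩
      rw [he, hTLZ] at h
      exact (pr_inj h).2.symm
    · intro h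
      exact ⟨f (v 0), rfl, T (v 0), L (v 0), by rw [h, hTLZ]⟩
  have hstep : ∀ n, Z n < Z (n + 1) ∧ (EqW col (Z (n + 1)) (T n) (L n) ∧ (L n ≤ L (n + 1) ∧
      (EqW col (T (n + 1)) (T n) (L n) ∧ (Z (n + 1) + (o + o) < L (n + 1) ∧
        col (T (n + 1) + (Z (n + 1) + (o + o))) = j)))) := by
    intro n
    obtain ⟨t, l, z, h1, t', l', z', h2, h3⟩ := hfS n
    rw [hTLZ n] at h1
    rw [hTLZ (n + 1)] at h2
    obtain ⟨h4, rfl⟩ := pr_inj h1
    obtain ⟨rfl, rfl⟩ := pr_inj h4
    obtain ⟨h5, rfl⟩ := pr_inj h2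
    obtain ⟨rfl, rfl⟩ := pr_inj h5
    exact h3
  have hext : ∀ m d, L m ≤ L (m + d) ∧ EqW col (T (m + d)) (T m) (L m) := by
    intro m d
    refine ind (P := fun d => L m ≤ L (m + d) ∧ EqW col (T (m + d)) (T m) (L m)) (by (repeat' (first | assumption | exact DF.var _ | refine DF.add ?_ ?_ | refine DF.mul ?_ ?_ | refine DF.pr ?_ ?_ | exact DF.const _ | refine DF.app (by assumption) ?_ | refine CT.app1 (by assumption) ?_ | refine CT.app2 (by assumption) ?_ ?_ | exact CT.const _ | refine D0.MemCF ?_ ?_ | refine D0.IsCF ?_ | refine EqW_D0 (by assumption) ?_ ?_ ?_ | refine Occ_D0 (by assumption) (by assumption) ?_ ?_ ?_ | refine OccF_D0 (by assumption) (by assumption) ?_ ?_ ?_ ?_ | refine D0.and ?_ ?_ | refine D0.or ?_ ?_ | refine D0.ex ?_ | refine D0.all ?_ | refine D0.iff ?_ ?_ | refine D0.imp ?_ ?_ | refine D0.not ?_ | refine D0.ltF ?_ ?_ | refine D0.leF ?_ ?_ | refine D0.eqF ?_ ?_ | refine CT.eq ?_ ?_ | refine CT.mem ?_ _ | refine D0.memF ?_ (by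 assumption) | exact D0.true | exact D0.false | exact D0.const _))) ?_ ?_ d
    · rw [add_zero]; exact ⟨le_rfl, EqW.refl _ _ _⟩
    · rintro d ⟨ih1, ih2⟩
      rw [← add_assoc]
      obtain ⟨_, _, h1, h2, _⟩ := hstep (m + d)
      exact ⟨ih1.trans h1, (h2.mono ih1).trans ih2⟩
  have hmono := mono_of_step hZD fun n => (hstep n).1
  have hle := le_of_step hZD fun n => (hstep n).1
  refine ⟨{j}, by simp, {x | ∃ n, x = Z (n + 1) + o}, comp_D0 (P := fun x => ∃ n, x = Z (n + 1) + o)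
    (by (repeat' (first | assumption | exact DF.var _ | refine DF.add ?_ ?_ | refine DF.mul ?_ ?_ | refine DF.pr ?_ ?_ | exact DF.const _ | refine DF.app (by assumption) ?_ | refine CT.app1 (by assumption) ?_ | refine CT.app2 (by assumption) ?_ ?_ | exact CT.const _ | refine D0.MemCF ?_ ?_ | refine D0.IsCF ?_ | refine EqW_D0 (by assumption) ?_ ?_ ?_ | refine Occ_D0 (by assumption) (by assumption) ?_ ?_ ?_ | refine OccF_D0 (by assumption) (by assumption) ?_ ?_ ?_ ?_ | refine D0.and ?_ ?_ | refine D0.or ?_ ?_ | refine D0.ex ?_ | refine D0.all ?_ | refine D0.iff ?_ ?_ | refine D0.imp ?_ ?_ | refine D0.not ?_ | refine D0.ltF ?_ ?_ | refine D0.leF ?_ ?_ | refine D0.eqF ?_ ?_ | refine CT.eq ?_ ?_ | refine CT.mem ?_ _ | refine D0.memF ?_ (by assumption) | exact D0.true | exact D0.false | exact D0.const _))), ?_, ?_, ?_⟩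
  · intro b
    refine ⟨Z (b + 1) + o, ⟨b, rfl⟩, lt_of_lt_of_le (lt1 b) ((hle (b + 1)).trans
      (le_add_of_nonneg_right (zero_le' o)))⟩
  · rintro _ ⟨n, rfl⟩
    rw [Finset.mem_singleton, hj, (hstep n).2.1 o (lt_of_lt_of_le hol (hL0 n)), hTE n o hol]
  · rintro _ ⟨m, rfl⟩ _ ⟨n, rfl⟩ hmn
    have hmn' : m < n := by
      rcases lt_trichotomy m n with h | h | h
      · exact h
      · rw [h] at hmn; exact absurd hmn (lt_irrefl _)
      · have := hmono (n + 1) (m + 1) (by gcongr)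
        exact absurd (lt_of_add_lt_add_right hmn) (not_lt_of_ge this.le)
    obtain ⟨d, rfl⟩ := exists_sub (succ_le' hmn')
    obtain ⟨h1, h2⟩ := hext (m + 1) d
    obtain ⟨_, _, _, _, h3, h4⟩ := hstep m
    have e : Z (m + 1) + o + (Z (m + 1 + d + 1) + o) =
        Z (m + 1 + d + 1) + (Z (m + 1) + (o + o)) := by ring
    rw [Finset.mem_singleton, e, (hstep (m + 1 + d)).2.1 _ (lt_of_lt_of_le h3 h1), h2 _ h3, h4]

end Pool.Agent.H645R2.K
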