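import Mathlib
import Pool.Agent.H645R2.K.Defs

/-! Assembly of the `k`-colour theorem from its steps. -/

namespace Pool.Agent.H645R2.K

open Pool.Agent.Helper617.RM Pool.Agent.H675R2.HT

universe u

set_option linter.unusedSectionVars false
set_option linter.unusedVariables false

variable {N : L2Structure.{u}} [IsModelRCA0 N] [Sig1 N] {k : ℕ}

theorem Conc.mono {col : N.M → Fin k} {K K' : ℕ} (h : Conc col K) (hK : K ≤ K') :
    Conc col K' := by
  obtain ⟨S, h1, h2⟩ := h
  exact ⟨S, h1.trans hK, h2⟩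

/-- the hypothesis of the E-case at one level -/
def EL (col A : N.M → Fin k) (G : Set N.M) (S : Finset (Fin k)) (L : N.M) : Prop :=
  ∃ t l o q1 q2, pr t l ∈ G ∧ q1 ≤ q2 ∧ q2 + L ≤ l ∧ (∀ i, i < L → A i = col (t + (q1 + i))) ∧
    (∀ i, i < L → A i = col (t + (q2 + i))) ∧ q1 + q2 = o + o ∧ o < l ∧ eS col A G S t l o

theorem EL.mono {col A : N.M → Fin k} {G : Set N.M} {S : Finset (Fin k)} {L L' : N.M}
    (h : EL col A G S L) (hL : L' ≤ L) : EL col A G S L' := by
  obtain ⟨t, l, o, q1, q2, h1, h2, h3, h4, h5, h6⟩ := h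
  exact ⟨t, l, o, q1, q2, h1, h2, (add_le_add_right hL q2).trans h3,
    fun i hi => h4 i (lt_of_lt_of_le hi hL), fun i hi => h5 i (lt_of_lt_of_le hi hL), h6⟩

theorem finite_max {ι : Type} (T : Finset ι) (P : ι → N.M → Prop)
    (h : ∀ i, ∃ L, P i L) (hm : ∀ i L L', L ≤ L' → P i L → P i L') :
    ∃ L, ∀ i ∈ T, P i L := by
  classical
  induction T using Finset.induction_on with
  | empty => exact ⟨0, fun i hi => by simp at hi⟩
  | insert a T ha ih =>
    obtain ⟨L, hL⟩ := ih
    obtain ⟨L', hL'⟩ := h a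
    refine ⟨max L L', fun i hi => ?_⟩
    rcases Finset.mem_insert.1 hi with rfl | hi
    · exact hm _ _ _ (le_max_right _ _) hL'
    · exact hm _ _ _ (le_max_left _ _) (hL i hi)

theorem main_of (h1 : S_minlang.{u}) (h2 : S_sys.{u}) (h3 : S_generic.{u}) (h4 : S_transfer.{u})
    (h5 : S_sep.{u}) (h6 : S_efinal.{u}) (h7 : S_cfinal.{u}) : S_main.{u} := by
  intro N _ _ k col hcol
  obtain ⟨G, hG⟩ := h1 N k col hcol
  obtain ⟨y, F, A, A1, B1, B2, A2, hS⟩ := h2 N k col G hcol hG
  set K := max 1 (k / 2) with hK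
  by_cases hH : HypH col A G
  · by_cases hE : ∃ S : Finset (Fin k), S.card ≤ K ∧ HypE col A G S
    · obtain ⟨S, hSK, hE⟩ := hE
      exact h6 N k col G y F A A1 B1 B2 A2 hS K S hSK hE
    · push Not at hE
      obtain ⟨L0, hL0⟩ := finite_max (N := N) (Finset.univ : Finset (Finset (Fin k)))
        (fun S L => S.card ≤ K → ¬ EL col A G S L) (by
          intro S
          by_cases hSK : S.card ≤ K
          · have h8 := hE S hSK
            unfold HypE at h8
            rw [not_forall] at h8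
            obtain ⟨L, hL⟩ := h8
            exact ⟨L, fun _ => hL⟩
          · exact ⟨0, fun h => absurd h hSK⟩) (by
          intro S L L' hLL h8 h9 h10
          exact h8 h9 (h10.mono hLL))
      refine h7 N k col G y F A A1 B1 B2 A2 hS K L0 ?_
      intro t l o htl hol hoL hA
      obtain ⟨t1, l1, o1, ht1, ho1, hC, S, hm, he⟩ := h5 N k col A G hG hH t l o htl hol
      refine ⟨t1, l1, o1, ht1, ho1, hC, S, ?_, hm⟩
      by_contra hSK
      have hcard : Sᶜ.card ≤ K := by
        rw [Finset.card_compl, Fintype.card_fin]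
        have : k / 2 ≤ K := le_max_right _ _
        omega
      obtain ⟨q1, q2, hq, hq2, hE1, hE2, hsum⟩ := hC
      refine hL0 Sᶜ (Finset.mem_univ _) hcard ⟨t1, l1, o1, q1 + o, q2 + o, ht1, ?_, ?_, ?_, ?_, ?_,
        ho1, he⟩
      · gcongr
      · have : q2 + o + L0 = q2 + (o + L0) := by ring
        rw [this]
        exact (add_le_add_right hoL q2).trans hq2
      · intro i hi
        have h8 := hE1 (o + i) (lt_of_lt_of_le (by gcongr) hoL)
        have e : t1 + (q1 + o + i) = t1 + q1 + (o + i) := by ring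
        rw [hA i hi, e, h8]
      · intro i hi
        have h8 := hE2 (o + i) (lt_of_lt_of_le (by gcongr) hoL)
        have e : t1 + (q2 + o + i) = t1 + q2 + (o + i) := by ring
        rw [hA i hi, e, h8]
      · rw [← hsum]; ring
  · unfold HypH at hH
    push Not at hH
    obtain ⟨t0, l0, o, ht0, ho, hno⟩ := hH
    refine (h3 N k col G hcol hG t0 l0 o ht0 ho ?_).mono (le_max_left _ _)
    intro t l b htl hl hE hbad
    exact hno t l htl hl hE (h4 N k col G y F A A1 B1 B2 A2 hS _ t l o b htl hbad)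

end Pool.Agent.H645R2.K
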