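import Mathlib
import Pool.Agent.H645R2.K.Defs

namespace Pool.Agent.H645R2.K

open Pool.Agent.Helper617.RM Pool.Agent.H675R2.HT

universe u

set_option linter.unusedSectionVars false
set_option linter.unusedVariables false

theorem occ : S_occ.{u} := by
  intro N _ _ k col G y F A A1 B1 B2 A2 h t l htl
  obtain ⟨g, hg⟩ := h.ml.recur t l htl
  have zl := zero_le' l
  refine ⟨?_, ?_, ?_⟩
  · obtain ⟨n, hn⟩ := h.A_lim g
    obtain ⟨w, hwG, hwO⟩ := h.F_word 0 (y n) g
    obtain ⟨r, hr, hE⟩ := hg w g hwG le_rfl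
    refine ⟨r, fun i hi => ?_⟩
    have hi' : r + i < g := by grind
    have h1 := hwO (r + i) hi'
    rw [zero_add] at h1
    rw [hn n le_rfl (r + i) hi', h1, ← hE i hi, add_assoc]
  · obtain ⟨n, hn⟩ := h.A1_lim g
    obtain ⟨m, hm⟩ := h.A_lim (y n + g)
    obtain ⟨w, hwG, hwO⟩ := h.F_word (y n) (y m) g
    obtain ⟨r, hr, hE⟩ := hg w g hwG le_rfl
    refine ⟨r, fun i hi => ?_⟩
    have hi' : r + i < g := by grind
    rw [hn n le_rfl (r + i) hi', hm m le_rfl (y n + (r + i)) (by grind), hwO (r + i) hi',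
      ← hE i hi, add_assoc]
  · obtain ⟨n, hn⟩ := h.B1_lim g
    obtain ⟨w, hwG, hwO⟩ := h.F_word (y n) 0 g
    obtain ⟨r, hr, hE⟩ := hg w g hwG le_rfl
    refine ⟨r, fun i hi => ?_⟩
    have hi' : r + i < g := by grind
    rw [hn n le_rfl (r + i) hi', hwO (r + i) hi', ← hE i hi, add_assoc]

end Pool.Agent.H645R2.K
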