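import Mathlib
import Pool.Agent.H645R2.K.Defs

namespace Pool.Agent.H645R2.K

open Pool.Agent.Helper617.RM Pool.Agent.H675R2.HT

universe u

set_option linter.unusedSectionVars false
set_option linter.unusedVariables false

theorem par (h2 : S_twoocc.{u}) : S_par.{u} := by
  intro N _ _ k col G y F A A1 B1 B2 A2 h t l htl
  obtain ⟨g0, hg0⟩ := h2 N k col G h.hcol h.ml t l htl
  obtain ⟨n1, hn1⟩ := h.A2_lim g0
  obtain ⟨n2, hn2⟩ := h.B2_lim g0
  obtain ⟨n0, h01, h02⟩ : ∃ n0, n1 ≤ n0 ∧ n2 ≤ n0 := ⟨max n1 n2, le_max_left _ _, le_max_right _ _⟩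
  obtain ⟨w, hwG, hwO⟩ := h.F_word 0 (y n0 + y n0) ((y n0 + y n0) + (y n0 + y n0) + g0)
  have hwO' : ∀ i, i < (y n0 + y n0) + (y n0 + y n0) + g0 → F i (y n0 + y n0) = col (w + i) := by
    intro i hi
    have := hwO i hi
    rwa [zero_add] at this
  have zy := zero_le' (y n0)
  have zg := zero_le' g0
  have zl := zero_le' l
  obtain ⟨f, f', e, hf, hf', hE, hE', hfe⟩ := hg0 w ((y n0 + y n0) + (y n0 + y n0) + g0) hwG 0
    ((y n0 + y n0) + (y n0 + y n0)) (y n0 + y n0) (by ring) (by grind) le_rfl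
  have zf := zero_le' f
  have zf' := zero_le' f'
  have hA2 : ∀ i, i < l → A2 (f + i) = col (t + i) := by
    intro i hi
    rw [hn1 n0 h01 (f + i) (by grind), hwO' (f + i) (by grind), ← hE i hi]
    congr 1
    ring
  have hB2 : ∀ i, i < l → B2 (f' + i) = col (t + i) := by
    intro i hi
    have h3 := h.F_shift (y n0 + y n0 + (f' + i)) 0 (y n0 + y n0)
    rw [zero_add] at h3
    rw [hn2 n0 h02 (f' + i) (by grind), ← h3, hwO' _ (by grind), ← hE' i hi]
    congr 1
    ring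
  refine ⟨f', f, e, n0, by rw [← hfe]; ring, fun n hn => ⟨?_, ?_⟩⟩
  · intro i hi
    have h3 := hn2 n (h02.trans hn) (f' + i) (by grind)
    have e1 : y n + y n + f' + i = y n + y n + (f' + i) := by ring
    rw [e1, ← h3, hB2 i hi]
  · intro i hi
    have h3 := hn1 n (h01.trans hn) (f + i) (by grind)
    rw [← h3, hA2 i hi]

end Pool.Agent.H645R2.K
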