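import Mathlib
import Pool.Agent.H645R2.K.Defs

namespace Pool.Agent.H645R2.K

open Pool.Agent.Helper617.RM Pool.Agent.H675R2.HT

universe u

set_option linter.unusedSectionVars false
set_option linter.unusedVariables false

namespace Pnt

variable {N : L2Structure.{u}} [IsModelRCA0 N] [Sig1 N] {k : ℕ}

/-- two-sided extension of good words, arbitrarily far -/
theorem mext {col : N.M → Fin k} {G : Set N.M} (h : MinLang col G) {t l : N.M}
    (hG : pr t l ∈ G) (R b : N.M) :
    ∃ q, b ≤ q ∧ EqW col (q + R) t l ∧ pr q (R + l + R) ∈ G := by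
  obtain ⟨g, hg⟩ := h.recur t l hG
  obtain ⟨s, hs, hsG⟩ := h.far (R + (g + R)) b
  have h1 : pr (s + R) g ∈ G := h.sub s (R + (g + R)) R (s + R) g hsG
    (by
      have := zero_le' R
      grind) (fun _ _ => rfl)
  obtain ⟨r, hr, hE⟩ := hg (s + R) g h1 le_rfl
  refine ⟨s + r, hs.trans (le_add_of_nonneg_right (zero_le' r)), ?_, ?_⟩
  · have e : s + r + R = s + R + r := by ring
    rw [e]; exact hE
  · exact h.sub s (R + (g + R)) r (s + r) (R + l + R) hsG (by grind) (fun _ _ => rfl)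

end Pnt

open Pnt in
theorem point : S_point.{u} := by
  intro N _ _ k col G hcol h
  have hG := h.mem
  obtain ⟨q0, _, hq0⟩ := h.far 0 0
  obtain ⟨f, hf, hf0, hfI, hfS⟩ := dc
    (Inv := fun e => ∃ q R, e = pr q R ∧ pr q (R + R) ∈ G)
    (St := fun e e' => ∃ q R, e = pr q R ∧ ∃ q', e' = pr q' (R + 1) ∧ EqW col (q' + 1) q (R + R))
    (by (repeat' (first | assumption | exact DF.var _ | refine DF.add ?_ ?_ | refine DF.mul ?_ ?_ | refine DF.pr ?_ ?_ | exact DF.const _ | refine DF.app (by assumption) ?_ | refine CT.app1 (by assumption) ?_ | refine CT.app2 (by assumption) ?_ ?_ | exact CT.const _ | refine D0.MemCF ?_ ?_ | refine D0.IsCF ?_ | refine EqW_D0 (by assumption) ?_ ?_ ?_ | refine Occ_D0 (by assumption) (by assumption) ?_ ?_ ?_ | refine OccF_D0 (by assumption) (by assumption) ?_ ?_ ?_ ?_ | refine D0.and ?_ ?_ | refine D0.or ?_ ?_ | refine D0.ex ?_ | refine D0.all ?_ | refine D0.iff ?_ ?_ | refine D0.imp ?_ ?_ | refine D0.not ?_ | refine D0.ltF ?_ ?_ | refine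 D0.leF ?_ ?_ | refine D0.eqF ?_ ?_ | refine CT.eq ?_ ?_ | refine CT.mem ?_ _ | refine D0.memF ?_ (by assumption) | exact D0.true | exact D0.false | exact D0.const _))) (by (repeat' (first | assumption | exact DF.var _ | refine DF.add ?_ ?_ | refine DF.mul ?_ ?_ | refine DF.pr ?_ ?_ | exact DF.const _ | refine DF.app (by assumption) ?_ | refine CT.app1 (by assumption) ?_ | refine CT.app2 (by assumption) ?_ ?_ | exact CT.const _ | refine D0.MemCF ?_ ?_ | refine D0.IsCF ?_ | refine EqW_D0 (by assumption) ?_ ?_ ?_ | refine Occ_D0 (by assumption) (by assumption) ?_ ?_ ?_ | refine OccF_D0 (by assumption) (by assumption) ?_ ?_ ?_ ?_ | refine D0.and ?_ ?_ | refine D0.or ?_ ?_ | refine D0.ex ?_ | refine D0.all ?_ | refine D0.iff ?_ ?_ | refine D0.imp ?_ ?_ | refine D0.not ?_ | refine D0.ltF ?_ ?_ | refine D0.leF ?_ ?_ | refine D0.eqF ?_ ?_ | refine CT.eq ?_ ?_ | refine CT.mem ?_ _ | refine D0.memF ?_ (by assumption) | exact D0.true | exact D0.false | exact D0.const _)))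
    (fun e ⟨q, R, he, h1⟩ => by
      obtain ⟨q', _, h2, h3⟩ := mext h h1 1 0
      refine ⟨pr q' (R + 1), ⟨q, R, he, q', rfl, h2⟩, q', R + 1, rfl, ?_⟩
      have e : R + 1 + (R + 1) = 1 + (R + R) + 1 := by ring
      rw [e]; exact h3)
    (a := pr q0 0) ⟨q0, 0, rfl, by rw [add_zero]; exact hq0⟩
  have hfD : DF1 f := hf
  have hshape : ∀ n, ∃ q, f n = pr q n := by
    intro n
    refine ind (P := fun n => ∃ q, f n = pr q n) ?_ ?_ ?_ n
    · (repeat' (first | assumption | exact DF.var _ | refine DF.add ?_ ?_ | refine DF.mul ?_ ?_ | refine DF.pr ?_ ?_ | exact DF.const _ | refine DF.app (by assumption) ?_ | refine CT.app1 (by assumption) ?_ | refine CT.app2 (by assumption) ?_ ?_ | exact CT.const _ | refine D0.MemCF ?_ ?_ | refine D0.IsCF ?_ | refine D0.and ?_ ?_ | refine D0.or ?_ ?_ | refine D0.ex ?_ | refine D0.all ?_ | refine D0.iff ?_ ?_ | refine D0.imp ?_ ?_ | refine D0.not ?_ | refine D0.ltF ?_ ?_ | refine D0.leF ?_ ?_ | refine D0.eqF ?_ ?_ | refine CT.eq ?_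 ?_ | refine CT.mem ?_ _ | refine D0.memF ?_ (by assumption) | exact D0.true | exact D0.false | exact D0.const _))
    · exact ⟨q0, hf0⟩
    · rintro n ⟨q, hq⟩
      obtain ⟨q1, R, h1, q', h2, _⟩ := hfS n
      rw [hq] at h1
      rw [h2, ← (pr_inj h1).2]
      exact ⟨q', rfl⟩
  choose Q hQ using hshape
  have hQD : DF1 Q := by
    have h1 : D0 (fun v : Ctx N => f (v 0) = pr (v 1) (v 0)) := by (repeat' (first | assumption | exact DF.var _ | refine DF.add ?_ ?_ | refine DF.mul ?_ ?_ | refine DF.pr ?_ ?_ | exact DF.const _ | refine DF.app (by assumption) ?_ | refine CT.app1 (by assumption) ?_ | refine CT.app2 (by assumption) ?_ ?_ | exact CT.const _ | refine D0.MemCF ?_ ?_ | refine D0.IsCF ?_ | refine D0.and ?_ ?_ | refine D0.or ?_ ?_ | refine D0.ex ?_ | refine D0.all ?_ | refine D0.iff ?_ ?_ | refine D0.imp ?_ ?_ | refine D0.not ?_ | refine D0.ltF ?_ ?_ | refine D0.leF ?_ ?_ | refine D0.eqF ?_ ?_ | refine CT.eq ?_ ?_ | refine CT.mem ?_ _ | refine D0.memF ?_ (by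 assumption) | exact D0.true | exact D0.false | exact D0.const _))
    refine h1.congr fun v => ?_
    rw [hQ]
    constructor
    · intro h
      exact (pr_inj h).1.symm
    · intro h
      rw [h]
  refine ⟨Q, hQD, ?_, ?_⟩
  · intro n
    obtain ⟨q, R, h1, h2⟩ := hfI n
    rw [hQ] at h1
    obtain ⟨rfl, rfl⟩ := pr_inj h1
    exact h2
  · intro n d
    have hstep : ∀ n, EqW col (Q (n + 1) + 1) (Q n) (n + n) := by
      intro n
      obtain ⟨q, R, h1, q', h2, h3⟩ := hfS n
      rw [hQ] at h1 h2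
      obtain ⟨rfl, rfl⟩ := pr_inj h1
      obtain ⟨rfl, _⟩ := pr_inj h2
      exact h3
    refine ind (P := fun d => EqW col (Q (n + d) + d) (Q n) (n + n)) ?_ ?_ ?_ d
    · (repeat' (first | assumption | exact DF.var _ | refine DF.add ?_ ?_ | refine DF.mul ?_ ?_ | refine DF.pr ?_ ?_ | exact DF.const _ | refine DF.app (by assumption) ?_ | refine CT.app1 (by assumption) ?_ | refine CT.app2 (by assumption) ?_ ?_ | exact CT.const _ | refine D0.MemCF ?_ ?_ | refine D0.IsCF ?_ | refine EqW_D0 (by assumption) ?_ ?_ ?_ | refine Occ_D0 (by assumption) (by assumption) ?_ ?_ ?_ | refine OccF_D0 (by assumption) (by assumption) ?_ ?_ ?_ ?_ | refine D0.and ?_ ?_ | refine D0.or ?_ ?_ | refine D0.ex ?_ | refine D0.all ?_ | refine D0.iff ?_ ?_ | refine D0.imp ?_ ?_ | refine D0.not ?_ | refine D0.ltF ?_ ?_ | refine D0.leF ?_ ?_ | refine D0.eqF ?_ ?_ | refine CT.eq ?_ ?_ | refine CT.mem ?_ _ | refine D0.memF ?_ (by assumption) | exact D0.true | exact D0.false | exact D0.const _))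
    · intro i hi
      rw [add_zero, add_zero]
    · intro d ih i hi
      have h1 := hstep (n + d) (d + i) (by
        have := zero_le' d
        grind)
      have e : Q (n + (d + 1)) + (d + 1) + i = Q (n + d + 1) + 1 + (d + i) := by
        rw [← add_assoc n d 1]; ring
      rw [e, h1, ← add_assoc]
      exact ih i hi

end Pool.Agent.H645R2.K
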