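import Mathlib
import Pool.Agent.H645R2.K.Defs

namespace Pool.Agent.H645R2.K

open Pool.Agent.Helper617.RM Pool.Agent.H675R2.HT

universe u

set_option linter.unusedSectionVars false
set_option linter.unusedVariables false

theorem sep : S_sep.{u} := by
  intro N _ _ k col A G hml hH t l o htl hol
  classical
  have key : ∀ m : ℕ, ∀ T : Finset (Fin k), T.card = m → ∀ t1 l1 o1, pr t1 l1 ∈ G → o1 < l1 →
      Cen col t l o t1 l1 o1 → eS col A G T t1 l1 o1 →
      ∃ t1 l1 o1, pr t1 l1 ∈ G ∧ o1 < l1 ∧ Cen col t l o t1 l1 o1 ∧
        ∃ S : Finset (Fin k), midS col G S t1 l1 o1 ∧ eS col A G Sᶜ t1 l1 o1 := by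
    intro m
    induction m using Nat.strong_induction_on with
    | _ m ih =>
      intro T hT t1 l1 o1 h1 ho1 hcen heS
      by_cases hmid : midS col G Tᶜ t1 l1 o1
      · refine ⟨t1, l1, o1, h1, ho1, hcen, Tᶜ, hmid, ?_⟩
        rw [compl_compl]
        exact heS
      · unfold midS at hmid
        push Not at hmid
        obtain ⟨t', l', p, s, h2, h3, h4, h5, h6⟩ := hmid
        rw [Finset.mem_compl, not_not] at h6
        have zp := zero_le' p
        have zs := zero_le' s
        have zl1 := zero_le' l1
        have zo1 := zero_le' o1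
        have ht2 : pr (t' + p) ((s + s) + l1) ∈ G :=
          hml.sub t' l' p (t' + p) ((s + s) + l1) h2 (by grind) (fun i _ => rfl)
        obtain ⟨t3, l3, h7, h8, h9, h10⟩ := hH (t' + p) ((s + s) + l1) (s + o1) ht2 (by grind)
        have ej : t' + p + (s + o1) = t' + (p + s + o1) := by ring
        rw [ej] at h10
        obtain ⟨q1, q2, hq, hq2, hE1, hE2, hqo⟩ := hcen
        have zq1 := zero_le' q1
        have zq2 := zero_le' q2
        have zl := zero_le' l
        refine ih (T.erase (col (t' + (p + s + o1)))).card ?_ _ rfl t3 l3 (s + o1) h7 (by grind)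
          ⟨q1, (s + s) + q2, by grind, by grind, ?_, ?_, ?_⟩ ?_
        · rw [← hT]
          exact Finset.card_erase_lt_of_mem h6
        · intro i hi
          have e1 : t3 + q1 + i = t3 + (q1 + i) := by ring
          rw [e1, h9 (q1 + i) (by grind)]
          have e2 : t' + p + (q1 + i) = (t' + p) + (q1 + i) := rfl
          rw [h4 (q1 + i) (by grind), ← add_assoc]
          exact hE1 i hi
        · intro i hi
          have e1 : t3 + (s + s + q2) + i = t3 + (s + s + (q2 + i)) := by ring
          rw [e1, h9 (s + s + (q2 + i)) (by grind)]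
          have e2 : t' + p + (s + s + (q2 + i)) = t' + (p + (s + s)) + (q2 + i) := by ring
          rw [e2, h5 (q2 + i) (by grind), ← add_assoc]
          exact hE2 i hi
        · calc q1 + (s + s + q2) + (o + o) = (s + s) + (q1 + q2 + (o + o)) := by ring
            _ = (s + s) + (o1 + o1) := by rw [hqo]
            _ = s + o1 + (s + o1) := by ring
        · intro h hOcc t4 l4 h11 h12 h13 h14
          rw [Finset.mem_erase]
          constructor
          · have h15 := h10 h hOcc t4 l4 h11 h12 h13 h14
            rw [Finset.mem_compl, Finset.mem_singleton] at h15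
            exact h15
          · have e1 : h + (s + o1 + (s + o1)) = (h + (s + s)) + (o1 + o1) := by ring
            rw [e1]
            rw [e1] at h14
            refine heS (h + (s + s)) ?_ t4 l4 h11 (by grind) ?_ h14
            · intro i hi
              have e2 : h + (s + s) + i = h + (s + s + i) := by ring
              rw [e2, hOcc (s + s + i) (by grind), h9 (s + s + i) (by grind)]
              have e3 : t' + p + (s + s + i) = t' + (p + (s + s)) + i := by ring
              rw [e3, h5 i hi]
            · intro i hi
              rw [h13 i (by grind), h9 i (by grind), h4 i hi]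
  refine key _ Finset.univ rfl t l o htl hol ⟨0, 0, le_rfl, by rw [zero_add], ?_, ?_, ?_⟩ ?_
  · intro i hi
    rw [add_zero]
  · intro i hi
    rw [add_zero]
  · ring
  · intro h _ t' l' _ _ _ _
    exact Finset.mem_univ _

end Pool.Agent.H645R2.K
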