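import Mathlib
import Pool.Agent.H645R2.K.Defs

/-! Dependent choice and pigeonhole over sets of colours. -/

namespace Pool.Agent.H645R2.K

open Pool.Agent.Helper617.RM Pool.Agent.H675R2.HT

universe u

set_option linter.unusedSectionVars false
set_option linter.unusedVariables false

theorem solveK : S_solveK.{u} := by
  intro N _ _ k col K P hcol hP hPS hstep
  have hPD : ∀ S, ∀ {g : Ctx N → N.M}, DF g → D0 (fun v => P S (g v)) :=
    fun S g hg => D0.app1 (R := fun a => P S a) (hP S) hg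
  obtain ⟨a, _, ha, _⟩ := hstep 0
  obtain ⟨f, hf, hf0, hfI, hfS⟩ := dc (N := N) (Inv := fun e => ∃ S, P S e)
    (St := fun e e' => e < e' ∧ ∀ S, ∀ z, z ≤ e → P S z → col (z + e') ∈ S)
    (D0.finEx fun S => hPD S (DF.var 0))
    (D0.and (by (repeat' (first | assumption | exact DF.var _ | refine DF.add ?_ ?_ | refine DF.mul ?_ ?_ | refine DF.pr ?_ ?_ | exact DF.const _ | refine DF.app (by assumption) ?_ | refine CT.app1 (by assumption) ?_ | refine CT.app2 (by assumption) ?_ ?_ | exact CT.const _ | refine D0.MemCF ?_ ?_ | refine D0.IsCF ?_ | refine D0.and ?_ ?_ | refine D0.or ?_ ?_ | refine D0.ex ?_ | refine D0.all ?_ | refine D0.iff ?_ ?_ | refine D0.imp ?_ ?_ | refine D0.not ?_ | refine D0.ltF ?_ ?_ | refine D0.leF ?_ ?_ | refine D0.eqF ?_ ?_ | refine CT.eq ?_ ?_ | refine CT.mem ?_ _ | refine D0.memF ?_ (by assumption) | exact D0.true | exact D0.false | exact D0.const _))) (D0.finAll fun S => D0.all (D0.imp (by (repeat' (first | assumption | exact DF.var _ | refine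 DF.add ?_ ?_ | refine DF.mul ?_ ?_ | refine DF.pr ?_ ?_ | exact DF.const _ | refine DF.app (by assumption) ?_ | refine CT.app1 (by assumption) ?_ | refine CT.app2 (by assumption) ?_ ?_ | exact CT.const _ | refine D0.MemCF ?_ ?_ | refine D0.IsCF ?_ | refine D0.and ?_ ?_ | refine D0.or ?_ ?_ | refine D0.ex ?_ | refine D0.all ?_ | refine D0.iff ?_ ?_ | refine D0.imp ?_ ?_ | refine D0.not ?_ | refine D0.ltF ?_ ?_ | refine D0.leF ?_ ?_ | refine D0.eqF ?_ ?_ | refine CT.eq ?_ ?_ | refine CT.mem ?_ _ | refine D0.memF ?_ (by assumption) | exact D0.true | exact D0.false | exact D0.const _))) (D0.imp (hPD S (DF.var 0))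
      (by (repeat' (first | assumption | exact DF.var _ | refine DF.add ?_ ?_ | refine DF.mul ?_ ?_ | refine DF.pr ?_ ?_ | exact DF.const _ | refine DF.app (by assumption) ?_ | refine CT.app1 (by assumption) ?_ | refine CT.app2 (by assumption) ?_ ?_ | exact CT.const _ | refine D0.MemCF ?_ ?_ | refine D0.IsCF ?_ | refine D0.and ?_ ?_ | refine D0.or ?_ ?_ | refine D0.ex ?_ | refine D0.all ?_ | refine D0.iff ?_ ?_ | refine D0.imp ?_ ?_ | refine D0.not ?_ | refine D0.ltF ?_ ?_ | refine D0.leF ?_ ?_ | refine D0.eqF ?_ ?_ | refine CT.eq ?_ ?_ | refine CT.mem ?_ _ | refine D0.memF ?_ (by assumption) | exact D0.true | exact D0.false | exact D0.const _)))))))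
    (fun e _ => by
      obtain ⟨x', h1, h2, h3⟩ := hstep e
      exact ⟨x', ⟨h1, h3⟩, h2⟩) (a := a) ha
  have hmono := mono_of_step hf fun n => (hfS n).1
  have hle := le_of_step hf fun n => (hfS n).1
  have hpair : ∀ i j, i < j → ∀ S, P S (f i) → col (f i + f j) ∈ S := by
    intro i j hij S hi
    rcases eq_zero_or_succ j with rfl | ⟨j', rfl⟩
    · exact absurd hij (not_lt_of_ge (zero_le' i))
    · refine (hfS j').2 S _ ?_ hi
      rcases lt_or_eq_of_le (le_of_lt1 hij) with h1 | rfl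
      · exact (hmono _ _ h1).le
      · exact le_rfl
  have hpig : ∃ S, ∀ b, ∃ n, b < n ∧ P S (f n) := by
    by_contra hcon
    push Not at hcon
    have key : ∀ T : Finset (Finset (Fin k)), ∃ b, ∀ S ∈ T, ∀ n, b < n → ¬ P S (f n) := by
      classical
      intro T
      induction T using Finset.induction_on with
      | empty => exact ⟨0, fun i hi => by simp at hi⟩
      | insert S T hS ih =>
        obtain ⟨b, hb⟩ := ih
        obtain ⟨b', hb'⟩ := hcon S
        refine ⟨max b b', fun S' hS' n hn => ?_⟩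
        rcases Finset.mem_insert.1 hS' with rfl | hi
        · exact hb' n (lt_of_le_of_lt (le_max_right _ _) hn)
        · exact hb S' hi n (lt_of_le_of_lt (le_max_left _ _) hn)
    obtain ⟨b, hb⟩ := key Finset.univ
    obtain ⟨S, hS⟩ := hfI (b + 1)
    exact hb S (Finset.mem_univ _) (b + 1) (lt1 b) hS
  obtain ⟨S, hS⟩ := hpig
  have hf' : DF1 f := hf
  refine ⟨S, ?_, {x | ∃ n, x = f n ∧ P S x}, comp_D0 (P := fun x => ∃ n, x = f n ∧ P S x) ?_,
    ?_, ?_, ?_⟩
  · obtain ⟨n, _, hn⟩ := hS 0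
    exact (hPS S _ hn).2
  · exact D0.ex (D0.and (by (repeat' (first | assumption | exact DF.var _ | refine DF.add ?_ ?_ | refine DF.mul ?_ ?_ | refine DF.pr ?_ ?_ | exact DF.const _ | refine DF.app (by assumption) ?_ | refine CT.app1 (by assumption) ?_ | refine CT.app2 (by assumption) ?_ ?_ | exact CT.const _ | refine D0.MemCF ?_ ?_ | refine D0.IsCF ?_ | refine D0.and ?_ ?_ | refine D0.or ?_ ?_ | refine D0.ex ?_ | refine D0.all ?_ | refine D0.iff ?_ ?_ | refine D0.imp ?_ ?_ | refine D0.not ?_ | refine D0.ltF ?_ ?_ | refine D0.leF ?_ ?_ | refine D0.eqF ?_ ?_ | refine CT.eq ?_ ?_ | refine CT.mem ?_ _ | refine D0.memF ?_ (by assumption) | exact D0.true | exact D0.false | exact D0.const _))) (hPD S (DF.var 1)))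
  · intro b
    obtain ⟨n, hn, hn'⟩ := hS b
    exact ⟨f n, ⟨n, rfl, hn'⟩, lt_of_lt_of_le hn (hle n)⟩
  · rintro _ ⟨n, rfl, hn⟩
    exact (hPS S _ hn).1
  · rintro _ ⟨i, rfl, hi⟩ _ ⟨j, rfl, hj⟩ hij
    refine hpair i j ?_ S hi
    rcases lt_trichotomy i j with h1 | h1 | h1
    · exact h1
    · rw [h1] at hij; exact absurd hij (lt_irrefl _)
    · exact absurd (hij.trans (hmono _ _ h1)) (lt_irrefl _)

end Pool.Agent.H645R2.K
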