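import Mathlib
import Pool.Agent.H645R2.K.Defs

namespace Pool.Agent.H645R2.K

open Pool.Agent.Helper617.RM Pool.Agent.H675R2.HT

universe u

set_option linter.unusedSectionVars false
set_option linter.unusedVariables false

variable {N : L2Structure.{u}} [IsModelRCA0 N] [Sig1 N] {k : ℕ}

/-- a property of the members of the sequence `y` that holds eventually -/
def SysEv (y : N.M → N.M) (R : N.M → N.M → Prop) : Prop :=
  ∀ W, ∃ n0, ∀ n, n0 ≤ n → R W (y n)

theorem SysEv.comp {y J : N.M → N.M} {R : N.M → N.M → Prop} (h : SysEv y R)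
    (hJ : ∀ n, n ≤ J n) : SysEv (fun n => y (J n)) R := by
  intro W
  obtain ⟨n0, h0⟩ := h W
  exact ⟨n0, fun n hn => h0 _ (hn.trans (hJ n))⟩

theorem sys_step (hc : S_conv.{u}) {y : N.M → N.M} (hy : DF1 y) {B : N.M → N.M → Fin k}
    (hB : CT2 B) : ∃ (y' : N.M → N.M) (A : N.M → Fin k), DF1 y' ∧ CT1 A ∧
      (∀ R, SysEv y R → SysEv y' R) ∧ ((∀ n, n ≤ y n) → ∀ n, n ≤ y' n) ∧
      SysEv y' (fun W c => ∀ i, i < W → A i = B c i) := by
  have hB' : CT2 (fun n i => B (y n) i) := CT2.of (by (repeat' (first | assumption | exact DF.var _ | refine DF.add ?_ ?_ | refine DF.mul ?_ ?_ | refine DF.pr ?_ ?_ | exact DF.const _ | refine DF.app (by assumption) ?_ | refine CT.app1 (by assumption) ?_ | refine CT.app2 (by assumption) ?_ ?_ | exact CT.const _ | refine D0.MemCF ?_ ?_ | refine D0.IsCF ?_ | refine D0.and ?_ ?_ | refine D0.or ?_ ?_ | refine D0.ex ?_ | refine D0.all ?_ | refine D0.iff ?_ ?_ | refine D0.imp ?_ ?_ | refine D0.not ?_ | refine D0.ltF ?_ ?_ | refine D0.leF ?_ ?_ | refine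 D0.eqF ?_ ?_ | refine CT.eq ?_ ?_ | refine CT.mem ?_ _ | refine D0.memF ?_ (by assumption) | exact D0.true | exact D0.false | exact D0.const _)))
  obtain ⟨J, A, hJD, hA, hJ, hJA⟩ := hc N k (fun n i => B (y n) i) hB'
  refine ⟨fun n => y (J n), A, DF1.of (by (repeat' (first | assumption | exact DF.var _ | refine DF.add ?_ ?_ | refine DF.mul ?_ ?_ | refine DF.pr ?_ ?_ | exact DF.const _ | refine DF.app (by assumption) ?_ | refine CT.app1 (by assumption) ?_ | refine CT.app2 (by assumption) ?_ ?_ | exact CT.const _ | refine D0.MemCF ?_ ?_ | refine D0.IsCF ?_ | refine D0.and ?_ ?_ | refine D0.or ?_ ?_ | refine D0.ex ?_ | refine D0.all ?_ | refine D0.iff ?_ ?_ | refine D0.imp ?_ ?_ | refine D0.not ?_ | refine D0.ltF ?_ ?_ | refine D0.leF ?_ ?_ | refine D0.eqF ?_ ?_ | refine CT.eq ?_ ?_ | refine CT.mem ?_ _ | refine D0.memF ?_ (by assumption) | exact D0.true | exact D0.false | exact D0.const _))), hA, fun R hR => hR.comp hJ, fun h n => ?_, ?_⟩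
  · exact (hJ n).trans (h (J n))
  · intro W
    exact ⟨W, fun n hn i hi => (hJA n i (lt_of_lt_of_le hi hn)).symm⟩

/-- the two-sided point -/
def sysF (col : N.M → Fin k) (Q : N.M → N.M) (u v : N.M) : Fin k :=
  col (Q ((u + 1) + v) + (u + 1) + u)

theorem sysF_eq {col : N.M → Fin k} {Q : N.M → N.M}
    (hQ : ∀ n d, EqW col (Q (n + d) + d) (Q n) (n + n)) {u v m : N.M} (h : u < m + v) :
    sysF col Q u v = col (Q (m + v) + m + u) := by
  have key : ∀ m d, u < m + v →
      col (Q (m + d + v) + (m + d) + u) = col (Q (m + v) + m + u) := by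
    intro m d hu
    have h1 := hQ (m + v) d (m + u) (by
      have := zero_le' v
      grind)
    have e1 : Q (m + d + v) + (m + d) + u = Q (m + v + d) + d + (m + u) := by
      have : m + d + v = m + v + d := by ring
      rw [this]; ring
    have e2 : Q (m + v) + m + u = Q (m + v) + (m + u) := by ring
    rw [e1, e2]; exact h1
  have hu : u < u + 1 + v := lt_of_lt_of_le (lt1 u) (le_add_of_nonneg_right (zero_le' v))
  unfold sysF
  rcases le_total m (u + 1) with hm | hm
  · obtain ⟨d, hd⟩ := exists_sub hm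
    rw [hd]
    exact key m d h
  · obtain ⟨d, hd⟩ := exists_sub hm
    rw [hd]
    exact (key (u + 1) d hu).symm

theorem sysF_shift {col : N.M → Fin k} {Q : N.M → N.M}
    (hQ : ∀ n d, EqW col (Q (n + d) + d) (Q n) (n + n)) (u v t : N.M) :
    sysF col Q (u + t) (v + t) = sysF col Q u v := by
  have h1 : u + t < (u + 1) + (v + t) := by
    have h2 := zero_le' v
    have h3 := lt1 u
    grind
  have h2 : u < (u + 1 + t) + v := by
    have h2 := zero_le' t
    have h4 := zero_le' v
    have h3 := lt1 u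
    grind
  rw [sysF_eq hQ h1, sysF_eq hQ h2]
  have e1 : u + 1 + (v + t) = u + 1 + t + v := by ring
  have e2 : ∀ X : N.M, X + (u + 1) + (u + t) = X + (u + 1 + t) + u := fun X => by ring
  rw [e1, e2]

theorem sys (hp : S_point.{u}) (hc : S_conv.{u}) : S_sys.{u} := by
  intro N _ _ k col G hcol hml
  obtain ⟨Q, hQD, hQG, hQ⟩ := hp N k col G hcol hml
  have hF : CT2 (sysF col Q) := CT2.of (by unfold sysF; (repeat' (first | assumption | exact DF.var _ | refine DF.add ?_ ?_ | refine DF.mul ?_ ?_ | refine DF.pr ?_ ?_ | exact DF.const _ | refine DF.app (by assumption) ?_ | refine CT.app1 (by assumption) ?_ | refine CT.app2 (by assumption) ?_ ?_ | exact CT.const _ | refine D0.MemCF ?_ ?_ | refine D0.IsCF ?_ | refine D0.and ?_ ?_ | refine D0.or ?_ ?_ | refine D0.ex ?_ | refine D0.all ?_ | refine D0.iff ?_ ?_ | refine D0.imp ?_ ?_ | refine D0.not ?_ | refine D0.ltF ?_ ?_ | refine D0.leF ?_ ?_ | refine D0.eqF ?_ ?_ | refine CT.eq ?_ ?_ | refine CT.mem ?_ _ | refine D0.memF ?_ (by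 assumption) | exact D0.true | exact D0.false | exact D0.const _)))
  set F := sysF col Q with hFdef
  have F_word : ∀ p v l, ∃ t, pr t l ∈ G ∧ OccF col F t l p v := by
    intro p v l
    refine ⟨Q (p + l + 1 + v) + (p + l + 1) + p, ?_, ?_⟩
    · refine hml.sub (Q (p + l + 1 + v)) (p + l + 1 + v + (p + l + 1 + v)) (p + l + 1 + p) _ l
        (hQG _) ?_ ?_
      · have h1 := zero_le' v
        have h2 := zero_le' l
        have h3 := zero_le' p
        have h4 := lt1 (p + l)
        grind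
      · intro i hi
        congr 1
        ring
    · intro i hi
      have h1 : p + i < p + l + 1 + v := by
        have h1 := zero_le' v
        have h4 := lt1 (p + l)
        grind
      rw [hFdef, sysF_eq hQ h1]
      congr 1
      ring
  have F_fac : ∀ p v t l, OccF col F t l p v → pr t l ∈ G := by
    intro p v t l h
    obtain ⟨t', ht', h'⟩ := F_word p v l
    refine hml.sub t' l 0 t l ht' (by rw [zero_add]) ?_
    intro i hi
    rw [add_zero, ← h' i hi, h i hi]
  -- the first sequence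
  have hy0 : DF1 (fun n => Q n + n) := DF1.of (by (repeat' (first | assumption | exact DF.var _ | refine DF.add ?_ ?_ | refine DF.mul ?_ ?_ | refine DF.pr ?_ ?_ | exact DF.const _ | refine DF.app (by assumption) ?_ | refine CT.app1 (by assumption) ?_ | refine CT.app2 (by assumption) ?_ ?_ | exact CT.const _ | refine D0.MemCF ?_ ?_ | refine D0.IsCF ?_ | refine D0.and ?_ ?_ | refine D0.or ?_ ?_ | refine D0.ex ?_ | refine D0.all ?_ | refine D0.iff ?_ ?_ | refine D0.imp ?_ ?_ | refine D0.not ?_ | refine D0.ltF ?_ ?_ | refine D0.leF ?_ ?_ | refine D0.eqF ?_ ?_ | refine CT.eq ?_ ?_ | refine CT.mem ?_ _ | refine D0.memF ?_ (by assumption) | exact D0.true | exact D0.false | exact D0.const _)))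
  have hy0_ge : ∀ n, n ≤ Q n + n := fun n => le_add_of_nonneg_left (zero_le' _)
  have hlim0 : ∀ v, SysEv (fun n => Q n + n)
      (fun W c => ∀ z, z + v = c → ∀ i, i < W → col (z + i) = F i v) := by
    intro v W
    refine ⟨v + W + 1, fun n hn z hz i hi => ?_⟩
    have hvn : v ≤ n := by
      have h1 := zero_le' W
      have h2 := lt1 (v + W)
      grind
    obtain ⟨m, hm⟩ := exists_sub hvn
    have hm' : n = m + v := by rw [hm]; ring
    have hz' : z = Q (m + v) + m := by
      apply add_cancel' (c := v)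
      rw [hz, hm']
      ring
    have hiv : i < m + v := by
      rw [← hm']
      have h1 := zero_le' v
      have h2 := lt1 (v + W)
      grind
    rw [hz', hFdef, sysF_eq hQ hiv]
  obtain ⟨y1, A, hy1, hA, hs1, hg1, hA1l⟩ := sys_step hc hy0 (B := fun c i => F i c)
    (CT2.of (by (repeat' (first | assumption | exact DF.var _ | refine DF.add ?_ ?_ | refine DF.mul ?_ ?_ | refine DF.pr ?_ ?_ | exact DF.const _ | refine DF.app (by assumption) ?_ | refine CT.app1 (by assumption) ?_ | refine CT.app2 (by assumption) ?_ ?_ | exact CT.const _ | refine D0.MemCF ?_ ?_ | refine D0.IsCF ?_ | refine D0.and ?_ ?_ | refine D0.or ?_ ?_ | refine D0.ex ?_ | refine D0.all ?_ | refine D0.iff ?_ ?_ | refine D0.imp ?_ ?_ | refine D0.not ?_ | refine D0.ltF ?_ ?_ | refine D0.leF ?_ ?_ | refine D0.eqF ?_ ?_ | refine CT.eq ?_ ?_ | refine CT.mem ?_ _ | refine D0.memF ?_ (by assumption) | exact D0.true | exact D0.false | exact D0.const _))))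
  obtain ⟨y2, A1, hy2, hA1, hs2, hg2, hA2l⟩ := sys_step hc hy1 (B := fun c i => A (c + i))
    (CT2.of (by (repeat' (first | assumption | exact DF.var _ | refine DF.add ?_ ?_ | refine DF.mul ?_ ?_ | refine DF.pr ?_ ?_ | exact DF.const _ | refine DF.app (by assumption) ?_ | refine CT.app1 (by assumption) ?_ | refine CT.app2 (by assumption) ?_ ?_ | exact CT.const _ | refine D0.MemCF ?_ ?_ | refine D0.IsCF ?_ | refine D0.and ?_ ?_ | refine D0.or ?_ ?_ | refine D0.ex ?_ | refine D0.all ?_ | refine D0.iff ?_ ?_ | refine D0.imp ?_ ?_ | refine D0.not ?_ | refine D0.ltF ?_ ?_ | refine D0.leF ?_ ?_ | refine D0.eqF ?_ ?_ | refine CT.eq ?_ ?_ | refine CT.mem ?_ _ | refine D0.memF ?_ (by assumption) | exact D0.true | exact D0.false | exact D0.const _))))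
  obtain ⟨y3, B1, hy3, hB1, hs3, hg3, hA3l⟩ := sys_step hc hy2 (B := fun c i => F (c + i) 0)
    (CT2.of (by (repeat' (first | assumption | exact DF.var _ | refine DF.add ?_ ?_ | refine DF.mul ?_ ?_ | refine DF.pr ?_ ?_ | exact DF.const _ | refine DF.app (by assumption) ?_ | refine CT.app1 (by assumption) ?_ | refine CT.app2 (by assumption) ?_ ?_ | exact CT.const _ | refine D0.MemCF ?_ ?_ | refine D0.IsCF ?_ | refine D0.and ?_ ?_ | refine D0.or ?_ ?_ | refine D0.ex ?_ | refine D0.all ?_ | refine D0.iff ?_ ?_ | refine D0.imp ?_ ?_ | refine D0.not ?_ | refine D0.ltF ?_ ?_ | refine D0.leF ?_ ?_ | refine D0.eqF ?_ ?_ | refine CT.eq ?_ ?_ | refine CT.mem ?_ _ | refine D0.memF ?_ (by assumption) | exact D0.true | exact D0.false | exact D0.const _))))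
  obtain ⟨y4, B2, hy4, hB2, hs4, hg4, hA4l⟩ := sys_step hc hy3
    (B := fun c i => F (c + c + i) 0) (CT2.of (by (repeat' (first | assumption | exact DF.var _ | refine DF.add ?_ ?_ | refine DF.mul ?_ ?_ | refine DF.pr ?_ ?_ | exact DF.const _ | refine DF.app (by assumption) ?_ | refine CT.app1 (by assumption) ?_ | refine CT.app2 (by assumption) ?_ ?_ | exact CT.const _ | refine D0.MemCF ?_ ?_ | refine D0.IsCF ?_ | refine D0.and ?_ ?_ | refine D0.or ?_ ?_ | refine D0.ex ?_ | refine D0.all ?_ | refine D0.iff ?_ ?_ | refine D0.imp ?_ ?_ | refine D0.not ?_ | refine D0.ltF ?_ ?_ | refine D0.leF ?_ ?_ | refine D0.eqF ?_ ?_ | refine CT.eq ?_ ?_ | refine CT.mem ?_ _ | refine D0.memF ?_ (by assumption) | exact D0.true | exact D0.false | exact D0.const _))))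
  obtain ⟨y5, A2, hy5, hA2, hs5, hg5, hA5l⟩ := sys_step hc hy4 (B := fun c i => F i (c + c))
    (CT2.of (by (repeat' (first | assumption | exact DF.var _ | refine DF.add ?_ ?_ | refine DF.mul ?_ ?_ | refine DF.pr ?_ ?_ | exact DF.const _ | refine DF.app (by assumption) ?_ | refine CT.app1 (by assumption) ?_ | refine CT.app2 (by assumption) ?_ ?_ | exact CT.const _ | refine D0.MemCF ?_ ?_ | refine D0.IsCF ?_ | refine D0.and ?_ ?_ | refine D0.or ?_ ?_ | refine D0.ex ?_ | refine D0.all ?_ | refine D0.iff ?_ ?_ | refine D0.imp ?_ ?_ | refine D0.not ?_ | refine D0.ltF ?_ ?_ | refine D0.leF ?_ ?_ | refine D0.eqF ?_ ?_ | refine CT.eq ?_ ?_ | refine CT.mem ?_ _ | refine D0.memF ?_ (by assumption) | exact D0.true | exact D0.false | exact D0.const _))))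
  exact ⟨y5, F, A, A1, B1, B2, A2,
    { hcol := hcol
      ml := hml
      hy := hy5
      hF := hF
      hA := hA
      hA1 := hA1
      hB1 := hB1
      hB2 := hB2
      hA2 := hA2
      y_ge := hg5 (hg4 (hg3 (hg2 (hg1 hy0_ge))))
      F_shift := sysF_shift hQ
      F_fac := F_fac
      F_word := F_word
      F_lim := fun v => hs5 _ (hs4 _ (hs3 _ (hs2 _ (hs1 _ (hlim0 v)))))
      A_lim := hs5 _ (hs4 _ (hs3 _ (hs2 _ hA1l)))
      A1_lim := hs5 _ (hs4 _ (hs3 _ hA2l))
      B1_lim := hs5 _ (hs4 _ hA3l)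
      B2_lim := hs5 _ hA4l
      A2_lim := hA5l }⟩

end Pool.Agent.H645R2.K
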