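import Mathlib
import Pool.Agent.H645R2.K.Defs

namespace Pool.Agent.H645R2.K

open Pool.Agent.Helper617.RM Pool.Agent.H675R2.HT

universe u

set_option linter.unusedSectionVars false
set_option linter.unusedVariables false

theorem transfer (ho : S_occ.{u}) : S_transfer.{u} := by
  intro N _ _ k col G y F A A1 B1 B2 A2 hS j t l o b htl hbad h hocc t' l' ht'G hll' heq hlt
  simp only [Finset.mem_compl, Finset.mem_singleton]
  intro hj
  obtain ⟨-, -, d, hd⟩ := ho N k col G y F A A1 B1 B2 A2 hS t' l' ht'G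
  obtain ⟨n0, hn0⟩ := hS.B1_lim (d + l')
  obtain ⟨n1, hn1⟩ := hS.A_lim (h + l)
  obtain ⟨a, ha0, ha1⟩ : ∃ a : N.M, n0 ≤ a ∧ n1 ≤ a := ⟨max n0 n1, le_max_left _ _, le_max_right _ _⟩
  obtain ⟨n2, hn2⟩ := hS.F_lim (y a) (h + l)
  obtain ⟨n, hnn0, hnn2, hnb⟩ : ∃ n : N.M, n0 ≤ n ∧ n2 ≤ n ∧ y a + b ≤ n :=
    ⟨max n0 (max n2 (y a + b)), le_max_left _ _,
      le_trans (le_max_left _ _) (le_max_right _ _),
      le_trans (le_max_right _ _) (le_max_right _ _)⟩
  have hyn : y a + b ≤ y n := le_trans hnb (hS.y_ge n)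
  obtain ⟨c, hc⟩ := exists_sub hyn
  -- z0 = b + c
  have hz0 : (b + c) + y a = y n := by rw [hc]; ring
  obtain ⟨t'', ht''G, ht''⟩ := hS.F_word (y a + d) 0 ((b + c) + l')
  have hb0 : (0 : N.M) ≤ b := zero_le' b
  have hc0 : (0 : N.M) ≤ c := zero_le' c
  have hh0 : (0 : N.M) ≤ h := zero_le' h
  refine hbad ((b + c) + h) ?_ ?_ t'' ((b + c) + l') ht''G ?_ ?_ ?_ ?_
  · grind
  · intro i hi
    have e1 := hn2 n hnn2 (b + c) hz0 (h + i) (by grind)
    have e2 := hn1 a ha1 (h + i) (by grind)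
    have e3 := hocc i hi
    have e4 : b + c + h + i = b + c + (h + i) := by ring
    rw [e4, e1, ← e2, e3]
  · grind
  · intro i hi
    have hi' : i < l' := lt_of_lt_of_le hi hll'
    have e1 := ht'' i (by grind)
    have e2 := hn0 a ha0 (d + i) (by grind)
    have e3 := hd i hi'
    have e4 := heq i hi
    have e5 : y a + d + i = y a + (d + i) := by ring
    rw [← e1, e5, ← e2, e3, e4]
  · grind
  · have hlt' : b + c + h + (o + o) < b + c + l' := by grind
    have e1 := ht'' (b + c + h + (o + o)) hlt'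
    have e2 := hn0 n hnn0 (d + (h + (o + o))) (by grind)
    have e3 := hd (h + (o + o)) hlt
    have e5 : y a + d + (b + c + h + (o + o)) = y n + (d + (h + (o + o))) := by
      rw [← hz0]; ring
    rw [← e1, e5, ← e2, e3, hj]

end Pool.Agent.H645R2.K
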