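import Mathlib
import Pool.Agent.H645R2.K.Defs
import Pool.Agent.H675R2.HT.Point

namespace Pool.Agent.H645R2.K

open Pool.Agent.Helper617.RM

universe u

set_option linter.unusedSectionVars false
set_option linter.unusedVariables false

theorem twoocc : S_twoocc.{u} := by
  intro N _ _ k col G _ hG t1 l1 h1
  have hrefl : ∀ (t l : N.M), EqW col t t l := fun t l i _ => rfl
  have htrans : ∀ {a b c l : N.M}, EqW col a b l → EqW col b c l → EqW col a c l :=
    fun h1 h2 i hi => (h1 i hi).trans (h2 i hi)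
  have hsubE : ∀ {a b r l L : N.M}, EqW col a b L → r + l ≤ L → EqW col (a + r) (b + r) l := by
    intro a b r l L h hr i hi
    rw [add_assoc, add_assoc]
    exact h (r + i) (lt_of_lt_of_le (by simpa using hi) hr)
  have hsubw : ∀ {t l}, pr t l ∈ G → ∀ {p g}, p + g ≤ l → pr (t + p) g ∈ G :=
    fun {t l} ht {p g} hp => hG.sub t l p (t + p) g ht hp (hrefl _ _)
  by_cases hodd : ∃ t2 l2 r r' h, pr t2 l2 ∈ G ∧ r + l1 ≤ l2 ∧ r' + l1 ≤ l2 ∧
      EqW col (t2 + r) t1 l1 ∧ EqW col (t2 + r') t1 l1 ∧ r + r' = h + h + 1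
  · obtain ⟨t2, l2, r, r', h, ht2, hr, hr', hE, hE', hpar⟩ := hodd
    obtain ⟨g, hg⟩ := hG.recur t2 l2 ht2
    -- even occurrence in every good interval of length `g`
    have hev : ∀ s, pr s g ∈ G → ∃ f e, f + l1 ≤ g ∧ EqW col (s + f) t1 l1 ∧ f = e + e := by
      intro s hs
      obtain ⟨ρ, hρ, hEρ⟩ := hg s g hs le_rfl
      have k1 : EqW col (s + (ρ + r)) t1 l1 := by
        rw [← add_assoc]; exact htrans (hsubE hEρ hr) hE
      have k2 : EqW col (s + (ρ + r')) t1 l1 := by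
        rw [← add_assoc]; exact htrans (hsubE hEρ hr') hE'
      have m1 : ρ + r + l1 ≤ g := by grind
      have m2 : ρ + r' + l1 ≤ g := by grind
      obtain ⟨a, ha | ha⟩ := Pool.Agent.H675R2.HT.parity (ρ + r)
      · exact ⟨ρ + r, a, m1, k1, ha⟩
      · obtain ⟨b, hb | hb⟩ := Pool.Agent.H675R2.HT.parity (ρ + r')
        · exact ⟨ρ + r', b, m2, k2, hb⟩
        · exfalso
          have e1 : (ρ + r) + (ρ + r') = (ρ + h) + (ρ + h) + 1 := by
            calc (ρ + r) + (ρ + r') = ρ + ρ + (r + r') := by ring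
              _ = _ := by rw [hpar]; ring
          rw [ha, hb] at e1
          have e2 : a + a + 1 + (b + b + 1) = (a + b + 1) + (a + b + 1) := by ring
          rw [e2] at e1
          exact Pool.Agent.H675R2.HT.parity_ne e1
    refine ⟨g, fun t l ht p q e _ hp hq => ?_⟩
    obtain ⟨f, a, h3, h4, h5⟩ := hev _ (hsubw ht hp)
    obtain ⟨f', b, h6, h7, h8⟩ := hev _ (hsubw ht hq)
    exact ⟨f, f', a + b, h3, h6, h4, h7, by rw [h5, h8]; ring⟩
  · push Not at hodd
    obtain ⟨g, hg⟩ := hG.recur t1 l1 h1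
    refine ⟨g, fun t l ht p q e hpq hp hq => ?_⟩
    obtain ⟨f, h3, h4⟩ := hg _ g (hsubw ht hp) le_rfl
    obtain ⟨f', h5, h6⟩ := hg _ g (hsubw ht hq) le_rfl
    obtain ⟨h, hh | hh⟩ := Pool.Agent.H675R2.HT.parity (f + f')
    · exact ⟨f, f', h, h3, h5, h4, h6, hh⟩
    · exfalso
      refine hodd t l (p + f) (q + f') (e + h) ht (by grind) (by grind) ?_ ?_ ?_
      · rw [← add_assoc]; exact h4
      · rw [← add_assoc]; exact h6
      · calc p + f + (q + f') = (p + q) + (f + f') := by ring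
          _ = _ := by rw [hpq, hh]; ring

end Pool.Agent.H645R2.K
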