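import Mathlib
import Pool.Agent.H645R2.K.Main
import Pool.Agent.H645R2.K.MinLangEx
import Pool.Agent.H645R2.K.Point
import Pool.Agent.H645R2.K.Conv
import Pool.Agent.H645R2.K.SysEx
import Pool.Agent.H645R2.K.GenericB
import Pool.Agent.H645R2.K.OccL
import Pool.Agent.H645R2.K.TwoOcc
import Pool.Agent.H645R2.K.Par
import Pool.Agent.H645R2.K.Transfer
import Pool.Agent.H645R2.K.Sep
import Pool.Agent.H645R2.K.SolveK
import Pool.Agent.H645R2.K.EFinal
import Pool.Agent.H645R2.K.CFinal

namespace Pool.Agent.H645R2.K

universe u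

/-- the main theorem -/
theorem main : S_main.{u} :=
  main_of minlang (sys point conv) genericB (transfer occ) sep (efinal occ solveK)
    (cfinal (par twoocc) solveK)

end Pool.Agent.H645R2.K
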